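import Mathlib

set_option autoImplicit false

namespace Pool.Agent.Q256.CI

open Finset MvPolynomial

/-- `x` is the intersection point of `n` rational hyperplanes with integral coefficients
of absolute value at most `T`. -/
def CutOut {n : ℕ} (T : ℕ) (x : Fin (n + 1) → ℚ) : Prop :=
  ∃ L : Fin n → Fin (n + 1) → ℤ, (∀ j k, |L j k| ≤ T) ∧
    LinearIndependent ℚ (fun j => (fun k => (L j k : ℚ))) ∧ ∀ j, ∑ k, (L j k : ℚ) * x k = 0

theorem span_eq {n : ℕ} (y : Fin (n + 1) → ℚ) (hy : y ≠ 0) (L : Fin n → Fin (n + 1) → ℚ)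
    (hind : LinearIndependent ℚ L) (horth : ∀ j, ∑ k, L j k * y k = 0)
    (v : Fin (n + 1) → ℚ) (hv : ∑ k, v k * y k = 0) :
    ∃ r : Fin n → ℚ, ∀ k, v k = ∑ j, r j * L j k := by
  classical
  let φ : (Fin (n + 1) → ℚ) →ₗ[ℚ] ℚ :=
    { toFun := fun w => ∑ k, w k * y k
      map_add' := by intro a b; simp [add_mul, sum_add_distrib]
      map_smul' := by intro c a; simp [mul_sum, mul_assoc] }
  have hφ : ∀ w, φ w = ∑ k, w k * y k := fun w => rfl
  have hne : φ ≠ 0 := by
    intro h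
    apply hy
    funext k
    have := congrArg (fun f => f (Pi.single k 1)) h
    simpa [hφ, Pi.single_apply] using this
  have hrange : Module.finrank ℚ (LinearMap.range φ) = 1 := by
    have : LinearMap.range φ = ⊤ := LinearMap.range_eq_top.2 (LinearMap.surjective hne)
    rw [this]; simp
  have hker : Module.finrank ℚ (LinearMap.ker φ) = n := by
    have := LinearMap.finrank_range_add_finrank_ker φ
    rw [hrange] at this
    simp at this
    omega
  have hle : Submodule.span ℚ (Set.range L) ≤ LinearMap.ker φ := by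
    rw [Submodule.span_le]
    rintro _ ⟨j, rfl⟩
    exact horth j
  have hfin : Module.finrank ℚ (Submodule.span ℚ (Set.range L)) = n := by
    rw [finrank_span_eq_card hind]; simp
  have heq : Submodule.span ℚ (Set.range L) = LinearMap.ker φ :=
    Submodule.eq_of_le_of_finrank_eq hle (by rw [hfin, hker])
  have hmem : v ∈ Submodule.span ℚ (Set.range L) := by
    rw [heq]; exact hv
  obtain ⟨r, hr⟩ := (Submodule.mem_span_range_iff_exists_fun ℚ).1 hmem
  refine ⟨r, fun k => ?_⟩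
  have := congrArg (fun f => f k) hr
  simp only [Finset.sum_apply, Pi.smul_apply, smul_eq_mul] at this
  exact this.symm

theorem lin_rep {n : ℕ} (y : Fin (n + 1) → ℤ) (hprim : ∃ a : Fin (n + 1) → ℤ, ∑ k, a k * y k = 1)
    (q : ℕ) (hq1 : 1 ≤ q) (k0 : Fin (n + 1)) (hq : |y k0| = q) (T : ℕ)
    (L : Fin n → Fin (n + 1) → ℤ) (hL : ∀ j k, |L j k| ≤ T)
    (hind : LinearIndependent ℚ (fun j => (fun k => (L j k : ℚ))))
    (horth : ∀ j, ∑ k, (L j k : ℚ) * y k = 0) (m : ℤ) :
    ∃ a : Fin (n + 1) → ℤ, ∑ k, a k * y k = m ∧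
      ∀ k, |(a k : ℝ)| ≤ |(m : ℝ)| / q + n * T := by
  classical
  obtain ⟨a1, ha1⟩ := hprim
  have hy0 : (y k0 : ℚ) ≠ 0 := by
    intro h
    have : y k0 = 0 := by exact_mod_cast h
    rw [this] at hq; simp at hq; omega
  have hyne : (fun k => (y k : ℚ)) ≠ 0 := fun h => hy0 (by simpa using congrFun h k0)
  let v : Fin (n + 1) → ℚ := fun k => (m * a1 k : ℤ) - if k = k0 then (m : ℚ) / y k0 else 0
  have hv : ∑ k, v k * (y k : ℚ) = 0 := by
    simp only [v, sub_mul, sum_sub_distrib, ite_mul, zero_mul, sum_ite_eq', mem_univ, if_true]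
    rw [div_mul_cancel₀ _ hy0]
    have : ∑ k, ((m * a1 k : ℤ) : ℚ) * (y k : ℚ) = m := by
      have h2 : ∑ k, (m * a1 k) * y k = m := by
        simp_rw [mul_assoc]; rw [← mul_sum, ha1, mul_one]
      exact_mod_cast h2
    rw [this]; ring
  obtain ⟨r, hr⟩ := span_eq (fun k => (y k : ℚ)) hyne (fun j k => (L j k : ℚ)) hind horth v hv
  refine ⟨fun k => m * a1 k - ∑ j, ⌊r j⌋ * L j k, ?_, ?_⟩
  · have h1 : ∀ j, ∑ k, L j k * y k = 0 := by
      intro j; have := horth j; exact_mod_cast this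
    simp only [sub_mul, sum_sub_distrib, sum_mul]
    rw [sum_comm]
    have h2 : ∀ j, ∑ k, ⌊r j⌋ * L j k * y k = 0 := by
      intro j; simp_rw [mul_assoc]; rw [← mul_sum, h1 j, mul_zero]
    rw [sum_congr rfl (fun j _ => h2 j)]
    simp only [sum_const_zero, sub_zero]
    simp_rw [mul_assoc]; rw [← mul_sum, ha1, mul_one]
  · intro k
    have h3 : ((m * a1 k - ∑ j, ⌊r j⌋ * L j k : ℤ) : ℚ) =
        (if k = k0 then (m : ℚ) / y k0 else 0) + ∑ j, Int.fract (r j) * L j k := by
      have h4 := hr k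
      simp only [v] at h4
      have h5 : ∑ j, Int.fract (r j) * (L j k : ℚ) =
          ∑ j, r j * (L j k : ℚ) - ∑ j, (⌊r j⌋ : ℚ) * (L j k : ℚ) := by
        rw [← sum_sub_distrib]
        refine sum_congr rfl (fun j _ => ?_)
        rw [← sub_mul]; rfl
      rw [h5, ← h4]
      push_cast; ring
    have h6 : |((m * a1 k - ∑ j, ⌊r j⌋ * L j k : ℤ) : ℚ)| ≤ |(m : ℚ)| / q + n * T := by
      rw [h3]
      refine (abs_add_le _ _).trans (add_le_add ?_ ?_)
      · have hqq : |(y k0 : ℚ)| = q := by exact_mod_cast hq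
        split_ifs
        · rw [abs_div, hqq]
        · rw [abs_zero]; positivity
      · refine (abs_sum_le_sum_abs _ _).trans ?_
        calc ∑ j, |Int.fract (r j) * (L j k : ℚ)| ≤ ∑ _j : Fin n, (T : ℚ) := by
              refine sum_le_sum (fun j _ => ?_)
              rw [abs_mul, abs_of_nonneg (Int.fract_nonneg _)]
              have h7 : |(L j k : ℚ)| ≤ T := by exact_mod_cast hL j k
              have h8 : Int.fract (r j) ≤ 1 := (Int.fract_lt_one _).le
              calc Int.fract (r j) * |(L j k : ℚ)| ≤ 1 * (T : ℚ) :=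
                    mul_le_mul h8 h7 (abs_nonneg _) zero_le_one
                _ = T := one_mul _
          _ = n * T := by simp
    have h9 : ((|((m * a1 k - ∑ j, ⌊r j⌋ * L j k : ℤ) : ℚ)| : ℚ) : ℝ) ≤
        ((|(m : ℚ)| / q + n * T : ℚ) : ℝ) := by exact_mod_cast h6
    push_cast at h9 ⊢
    exact h9

theorem form_rep {n : ℕ} (y : Fin (n + 1) → ℤ) (hprim : ∃ a : Fin (n + 1) → ℤ, ∑ k, a k * y k = 1)
    (q : ℕ) (hq1 : 1 ≤ q) (k0 : Fin (n + 1)) (hq : |y k0| = q) (T : ℕ)
    (L : Fin n → Fin (n + 1) → ℤ) (hL : ∀ j k, |L j k| ≤ T)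
    (hind : LinearIndependent ℚ (fun j => (fun k => (L j k : ℚ))))
    (horth : ∀ j, ∑ k, (L j k : ℚ) * y k = 0) (d : ℕ) :
    ∀ m : ℤ, ∃ w : MvPolynomial (Fin (n + 1)) ℤ, w.IsHomogeneous d ∧ eval y w = m ∧
      ∀ α, |((w.coeff α : ℤ) : ℝ)| ≤ (n + 1 : ℝ) ^ d * (|(m : ℝ)| / q ^ d + n * d * T) := by
  classical
  have hqr : (1 : ℝ) ≤ q := by exact_mod_cast hq1
  induction d with
  | zero =>
    intro m
    refine ⟨C m, isHomogeneous_C _ _, by simp, fun α => ?_⟩
    rw [coeff_C]
    split_ifs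
    · simp
    · simp
  | succ d ih =>
    intro m
    obtain ⟨a, ha, hab⟩ := lin_rep y hprim q hq1 k0 hq T L hL hind horth m
    choose g hg1 hg2 hg3 using ih
    refine ⟨∑ k, X k * g (a k), ?_, ?_, ?_⟩
    · refine IsHomogeneous.sum _ _ _ (fun k _ => ?_)
      have h0 := (isHomogeneous_X (R := ℤ) k).mul (hg1 (a k))
      rwa [Nat.add_comm 1 d] at h0
    · rw [map_sum]
      simp only [map_mul, eval_X, hg2]
      rw [← ha]
      exact sum_congr rfl (fun k _ => mul_comm _ _)
    · intro α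
      rw [coeff_sum]
      push_cast
      refine (abs_sum_le_sum_abs _ _).trans ?_
      have hB : ∀ k, |((coeff α (X k * g (a k)) : ℤ) : ℝ)| ≤
          (n + 1 : ℝ) ^ d * (|(m : ℝ)| / q ^ (d + 1) + n * (d + 1 : ℕ) * T) := by
        intro k
        have hpos : (0 : ℝ) ≤ (n + 1 : ℝ) ^ d * (|(m : ℝ)| / q ^ (d + 1) + n * (d + 1 : ℕ) * T) := by
          positivity
        rw [coeff_X_mul']
        split_ifs
        · refine (hg3 (a k) _).trans ?_
          refine mul_le_mul_of_nonneg_left ?_ (by positivity)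
          have h1 : |(a k : ℝ)| / q ^ d ≤ (|(m : ℝ)| / q + n * T) / q ^ d :=
            div_le_div_of_nonneg_right (hab k) (by positivity)
          have h2 : (|(m : ℝ)| / q + n * T) / (q : ℝ) ^ d =
              |(m : ℝ)| / q ^ (d + 1) + n * T / q ^ d := by
            rw [add_div, div_div, ← pow_succ']
          have h3 : (n * T : ℝ) / q ^ d ≤ n * T :=
            div_le_self (by positivity) (one_le_pow₀ hqr)
          push_cast
          rw [h2] at h1
          nlinarith
        · simpa using hpos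
      calc ∑ k, |((coeff α (X k * g (a k)) : ℤ) : ℝ)|
          ≤ ∑ _k : Fin (n + 1), (n + 1 : ℝ) ^ d * (|(m : ℝ)| / q ^ (d + 1) + n * (d + 1 : ℕ) * T) :=
            sum_le_sum (fun k _ => hB k)
        _ = (n + 1 : ℝ) ^ (d + 1) * (|(m : ℝ)| / q ^ (d + 1) + n * ((d + 1 : ℕ) : ℝ) * T) := by
            rw [sum_const, card_univ, Fintype.card_fin, nsmul_eq_mul]
            push_cast; ring
        _ ≤ _ := by push_cast; exact le_refl _

end Pool.Agent.Q256.CI
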