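import Mathlib
import Pool.Agent.Q256.CI.Lin

set_option autoImplicit false

namespace Pool.Agent.Q256.CI

open Finset MvPolynomial

/-- polynomials with support in `S` and integral coefficients of absolute value at most `B`. -/
def SBox {σ : Type} (S : Finset (σ →₀ ℕ)) (B : ℕ) : Set (MvPolynomial σ ℤ) :=
  {F | (∀ α, |F.coeff α| ≤ B) ∧ F.support ⊆ S}

noncomputable def sboxEquiv {σ : Type} [DecidableEq σ] (S : Finset (σ →₀ ℕ)) (B : ℕ) :
    SBox S B ≃ (S → Finset.Icc (-(B : ℤ)) B) where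
  toFun F α := ⟨F.1.coeff α.1, Finset.mem_Icc.2 (abs_le.1 (F.2.1 α.1))⟩
  invFun c := ⟨∑ α : S, monomial α.1 (c α).1, by
    have hc : ∀ β, coeff β (∑ α : S, monomial α.1 (c α).1) =
        if h : β ∈ S then (c ⟨β, h⟩).1 else 0 := by
      intro β
      rw [coeff_sum]
      simp only [coeff_monomial]
      split_ifs with h
      · rw [Finset.sum_eq_single ⟨β, h⟩]
        · simp
        · intro b _ hb
          rw [if_neg]
          intro h2; apply hb; exact Subtype.ext h2
        · intro h2; exact absurd (mem_univ _) h2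
      · apply Finset.sum_eq_zero
        intro b _
        rw [if_neg]
        intro h2; apply h; rw [← h2]; exact b.2
    constructor
    · intro β
      rw [hc]
      split_ifs with h
      · exact abs_le.2 (Finset.mem_Icc.1 (c ⟨β, h⟩).2)
      · simp
    · intro β hβ
      rw [mem_support_iff, hc] at hβ
      by_contra h
      rw [dif_neg h] at hβ
      exact hβ rfl⟩
  left_inv F := by
    apply Subtype.ext
    ext β
    simp only [coeff_sum, coeff_monomial]
    by_cases h : β ∈ S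
    · rw [Finset.sum_eq_single ⟨β, h⟩]
      · simp
      · intro b _ hb
        rw [if_neg]
        intro h2; apply hb; exact Subtype.ext h2
      · intro h2; exact absurd (mem_univ _) h2
    · rw [Finset.sum_eq_zero]
      · by_contra h2
        exact h (F.2.2 (mem_support_iff.2 (Ne.symm h2)))
      · intro b _
        rw [if_neg]
        intro h2; apply h; rw [← h2]; exact b.2
  right_inv c := by
    funext β
    apply Subtype.ext
    simp only [coeff_sum, coeff_monomial]
    rw [Finset.sum_eq_single β]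
    · simp
    · intro b _ hb
      rw [if_neg]
      intro h2; apply hb; exact Subtype.ext h2
    · intro h2; exact absurd (mem_univ _) h2

theorem card_sbox {σ : Type} [DecidableEq σ] (S : Finset (σ →₀ ℕ)) (B : ℕ) :
    Nat.card (SBox S B) = (2 * B + 1) ^ #S := by
  rw [Nat.card_congr (sboxEquiv S B), Nat.card_fun]
  congr 1
  · rw [Nat.card_eq_fintype_card, Fintype.card_coe, Int.card_Icc]; omega
  · rw [Nat.card_eq_fintype_card, Fintype.card_coe]

theorem finite_sbox {σ : Type} [DecidableEq σ] (S : Finset (σ →₀ ℕ)) (B : ℕ) :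
    (SBox S B).Finite := by
  have : Finite (SBox S B) := Finite.of_equiv _ (sboxEquiv S B).symm
  exact Set.toFinite _

/-- forms of degree `d` in `n + 1` variables, with integral coefficients of absolute value at
most `B`. -/
def Box (n d B : ℕ) : Set (MvPolynomial (Fin (n + 1)) ℤ) :=
  {F | F.IsHomogeneous d ∧ ∀ α, |F.coeff α| ≤ B}

theorem mem_anti {n d : ℕ} (α : Fin (n + 1) →₀ ℕ) :
    α ∈ Finset.finsuppAntidiag (univ : Finset (Fin (n + 1))) d ↔ α.degree = d := by
  rw [Finset.mem_finsuppAntidiag]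
  simp [Finsupp.degree_eq_sum]

theorem box_eq (n d B : ℕ) :
    Box n d B = SBox (Finset.finsuppAntidiag (univ : Finset (Fin (n + 1))) d) B := by
  ext F
  constructor
  · rintro ⟨h1, h2⟩
    refine ⟨h2, fun α hα => ?_⟩
    rw [mem_anti]
    by_contra h
    exact (mem_support_iff.1 hα) (h1.coeff_eq_zero h)
  · rintro ⟨h1, h2⟩
    refine ⟨?_, h1⟩
    intro α hα
    have := (mem_anti (d := d) α).1 (h2 (mem_support_iff.2 hα))
    rw [← this]
    exact (Finsupp.degree_eq_weight_one (R := ℕ) ▸ rfl)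

theorem card_anti (n d : ℕ) :
    #(Finset.finsuppAntidiag (univ : Finset (Fin (n + 1))) d) = (n + d).choose n := by
  rw [Finset.card_finsuppAntidiag_nat_eq_choose, card_univ, Fintype.card_fin]
  have : n + 1 + d - 1 = n + d := by omega
  rw [this, Nat.choose_symm_add]

theorem card_box (n d B : ℕ) : Nat.card (Box n d B) = (2 * B + 1) ^ (n + d).choose n := by
  rw [box_eq, card_sbox, card_anti]

theorem finite_box (n d B : ℕ) : (Box n d B).Finite := by
  rw [box_eq]; exact finite_sbox _ _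

/-- forms in the box which vanish at the integral vector `y`. -/
def Van (n d B : ℕ) (y : Fin (n + 1) → ℤ) : Set (MvPolynomial (Fin (n + 1)) ℤ) :=
  {F | F ∈ Box n d B ∧ eval y F = 0}

theorem finite_van (n d B : ℕ) (y : Fin (n + 1) → ℤ) : (Van n d B y).Finite :=
  (finite_box n d B).subset (fun _ h => h.1)

theorem count_one {n : ℕ} (y : Fin (n + 1) → ℤ)
    (hprim : ∃ a : Fin (n + 1) → ℤ, ∑ k, a k * y k = 1)
    (q : ℕ) (hq1 : 1 ≤ q) (k0 : Fin (n + 1)) (hq : |y k0| = q) (T : ℕ)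
    (L : Fin n → Fin (n + 1) → ℤ) (hL : ∀ j k, |L j k| ≤ T)
    (hind : LinearIndependent ℚ (fun j => (fun k => (L j k : ℚ))))
    (horth : ∀ j, ∑ k, (L j k : ℚ) * y k = 0) (d H : ℕ) (hHT : H ≤ T) :
    Nat.card (Van n d H y) * (T * q ^ d) ≤
      (2 * (((n + 1) ^ d * (1 + n * d) + 1) * T) + 1) ^ (n + d).choose n := by
  classical
  choose w hw1 hw2 hw3 using form_rep y hprim q hq1 k0 hq T L hL hind horth d
  rw [← card_box]
  have hqr : (0 : ℝ) < (q : ℝ) ^ d := by positivity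
  have hcard : Nat.card (Van n d H y) * (T * q ^ d) =
      Nat.card (Van n d H y × Fin (T * q ^ d)) := by
    rw [Nat.card_prod, Nat.card_fin]
  rw [hcard]
  have hmem : ∀ p : Van n d H y × Fin (T * q ^ d),
      p.1.1 + w (p.2.1 : ℤ) ∈ Box n d (((n + 1) ^ d * (1 + n * d) + 1) * T) := by
    rintro ⟨⟨F, hF⟩, m⟩
    refine ⟨hF.1.1.add (hw1 _), fun α => ?_⟩
    rw [coeff_add]
    have h1 : |((F.coeff α : ℤ) : ℝ)| ≤ T := by
      have h2 : |F.coeff α| ≤ (T : ℤ) := (hF.1.2 α).trans (by exact_mod_cast hHT)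
      exact_mod_cast h2
    have h2 := hw3 (m.1 : ℤ) α
    have h3 : |(((m.1 : ℕ) : ℤ) : ℝ)| / (q : ℝ) ^ d ≤ T := by
      rw [div_le_iff₀ hqr]
      have h4 : ((m.1 : ℕ) : ℝ) ≤ T * q ^ d := by exact_mod_cast m.2.le
      rw [Int.cast_natCast, abs_of_nonneg (Nat.cast_nonneg _)]
      exact h4
    have h5 : |(((w (m.1 : ℤ)).coeff α : ℤ) : ℝ)| ≤ (n + 1 : ℝ) ^ d * (T + n * d * T) :=
      h2.trans (mul_le_mul_of_nonneg_left (by linarith) (by positivity))
    have h6 : |((F.coeff α + (w (m.1 : ℤ)).coeff α : ℤ) : ℝ)| ≤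
        ((((n + 1) ^ d * (1 + n * d) + 1) * T : ℕ) : ℝ) := by
      push_cast
      refine (abs_add_le _ _).trans ?_
      refine (add_le_add h1 h5).trans (le_of_eq ?_)
      ring
    exact_mod_cast h6
  have : Finite (Box n d (((n + 1) ^ d * (1 + n * d) + 1) * T)) :=
    (finite_box _ _ _).to_subtype
  refine Nat.card_le_card_of_injective (fun p => (⟨_, hmem p⟩ :
    Box n d (((n + 1) ^ d * (1 + n * d) + 1) * T))) ?_
  rintro ⟨⟨F, hF⟩, m⟩ ⟨⟨G, hG⟩, m'⟩ h
  have h1 : F + w (m.1 : ℤ) = G + w (m'.1 : ℤ) := congrArg Subtype.val h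
  have h2 := congrArg (eval y) h1
  rw [map_add, map_add, hF.2, hG.2, hw2, hw2, zero_add, zero_add] at h2
  have h3 : m = m' := by
    apply Fin.ext; exact_mod_cast h2
  subst h3
  have h4 : F = G := add_right_cancel h1
  subst h4
  rfl

theorem count_real {n : ℕ} (y : Fin (n + 1) → ℤ)
    (hprim : ∃ a : Fin (n + 1) → ℤ, ∑ k, a k * y k = 1)
    (q : ℕ) (hq1 : 1 ≤ q) (k0 : Fin (n + 1)) (hq : |y k0| = q) (T : ℕ) (hT : 1 ≤ T)
    (L : Fin n → Fin (n + 1) → ℤ) (hL : ∀ j k, |L j k| ≤ T)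
    (hind : LinearIndependent ℚ (fun j => (fun k => (L j k : ℚ))))
    (horth : ∀ j, ∑ k, (L j k : ℚ) * y k = 0) (d H : ℕ) (hHT : H ≤ T) :
    (Nat.card (Van n d H y) : ℝ) ≤
      (2 * ((n + 1) ^ d * (1 + n * d)) + 3 : ℝ) ^ (n + d).choose n *
        (T : ℝ) ^ ((n + d).choose n - 1) * ((q : ℝ) ^ d)⁻¹ := by
  have h := count_one y hprim q hq1 k0 hq T L hL hind horth d H hHT
  have hN : 1 ≤ (n + d).choose n := Nat.choose_pos (Nat.le_add_right _ _)
  set N := (n + d).choose n with hNdef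
  have hT0 : (0 : ℝ) < T := by exact_mod_cast hT
  have hqr : (0 : ℝ) < (q : ℝ) ^ d := by positivity
  have h1 : (Nat.card (Van n d H y) : ℝ) * (T * q ^ d) ≤
      ((2 * ((n + 1) ^ d * (1 + n * d)) + 3 : ℝ) * T) ^ N := by
    have h2 : ((Nat.card (Van n d H y) * (T * q ^ d) : ℕ) : ℝ) ≤
        (((2 * (((n + 1) ^ d * (1 + n * d) + 1) * T) + 1) ^ N : ℕ) : ℝ) := by exact_mod_cast h
    push_cast at h2
    refine h2.trans (pow_le_pow_left₀ (by positivity) ?_ _)
    have h3 : (1 : ℝ) ≤ T := by exact_mod_cast hT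
    nlinarith
  rw [mul_pow] at h1
  have h4 : (T : ℝ) ^ N = (T : ℝ) ^ (N - 1) * T := by
    rw [← pow_succ]; congr 1; omega
  rw [h4] at h1
  have h5 : (Nat.card (Van n d H y) : ℝ) * q ^ d ≤
      (2 * ((n + 1) ^ d * (1 + n * d)) + 3 : ℝ) ^ N * (T : ℝ) ^ (N - 1) := by
    have h6 : ((Nat.card (Van n d H y) : ℝ) * q ^ d) * T ≤
        ((2 * ((n + 1) ^ d * (1 + n * d)) + 3 : ℝ) ^ N * (T : ℝ) ^ (N - 1)) * T := by
      calc _ = (Nat.card (Van n d H y) : ℝ) * (T * q ^ d) := by ring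
        _ ≤ _ := h1
        _ = _ := by ring
    exact le_of_mul_le_mul_right h6 hT0
  rw [← div_eq_mul_inv, le_div_iff₀ hqr]
  exact h5

end Pool.Agent.Q256.CI
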