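import Mathlib
import Pool.Agent.Q256.CI.Cnt

set_option autoImplicit false

namespace Pool.Agent.Q256.CI

open Finset MvPolynomial

theorem summ (n : ℕ) :
    Summable (fun y : Fin (n + 1) → ℤ => (‖(fun k => (y k : ℝ))‖⁻¹) ^ (n + 2)) := by
  classical
  let b := Pi.basisFun ℝ (Fin (n + 1))
  let Λ : Submodule ℤ (Fin (n + 1) → ℝ) := Submodule.span ℤ (Set.range b)
  have hmem : ∀ y : Fin (n + 1) → ℤ, (fun k => (y k : ℝ)) ∈ Λ := by
    intro y
    have h : (fun k => (y k : ℝ)) = ∑ k, y k • b k := by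
      funext j
      simp [b, Pi.single_apply]
    rw [h]
    exact Submodule.sum_mem _ (fun k _ => Submodule.smul_mem _ _ (Submodule.subset_span ⟨k, rfl⟩))
  have hrank : Module.finrank ℤ Λ = n + 1 := by
    rw [ZLattice.rank ℝ Λ]; simp
  have hs := ZLattice.summable_norm_pow_inv Λ (n + 2) (by rw [hrank]; omega)
  have hinj : Function.Injective (fun y : Fin (n + 1) → ℤ => (⟨_, hmem y⟩ : Λ)) := by
    intro y z h
    have h1 := congrArg Subtype.val h
    funext k
    have h2 : (y k : ℝ) = z k := congrFun h1 k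
    exact_mod_cast h2
  have h3 := hs.comp_injective hinj
  refine h3.congr (fun y => ?_)
  rfl

theorem aeval_scale {n d : ℕ} (F : MvPolynomial (Fin (n + 1)) ℤ) (hF : F.IsHomogeneous d)
    (x : Fin (n + 1) → ℚ) (c : ℚ) (y : Fin (n + 1) → ℤ) (hy : ∀ k, (y k : ℚ) = c * x k)
    (hx : aeval x F = 0) : eval y F = 0 := by
  have h1 : ((eval y F : ℤ) : ℚ) = aeval (fun k => (y k : ℚ)) F := by
    rw [aeval_def, eval₂_eq', eval_eq']
    push_cast
    rfl
  have h2 : aeval (fun k => (y k : ℚ)) F = c ^ d * aeval x F := by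
    rw [aeval_def, aeval_def, eval₂_eq', eval₂_eq', mul_sum]
    refine sum_congr rfl (fun α hα => ?_)
    have h3 : α.degree = d := by
      by_contra h
      exact (mem_support_iff.1 hα) (hF.coeff_eq_zero h)
    have h4 : ∏ i, (y i : ℚ) ^ α i = c ^ d * ∏ i, x i ^ α i := by
      simp_rw [hy, mul_pow]
      rw [prod_mul_distrib, prod_pow_eq_pow_sum, ← h3, Finsupp.degree_eq_sum]
    rw [h4]; ring
  have h5 : ((eval y F : ℤ) : ℚ) = 0 := by rw [h1, h2, hx, mul_zero]
  exact_mod_cast h5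

theorem prim {n : ℕ} (x : Fin (n + 1) → ℚ) (hx : x ≠ 0) :
    ∃ y : Fin (n + 1) → ℤ, (∃ a : Fin (n + 1) → ℤ, ∑ k, a k * y k = 1) ∧
      ∃ c : ℚ, ∀ k, (y k : ℚ) = c * x k := by
  classical
  obtain ⟨z, D, hD, hz⟩ : ∃ (z : Fin (n + 1) → ℤ) (D : ℚ), D ≠ 0 ∧ ∀ k, (z k : ℚ) = D * x k := by
    let D : ℕ := ∏ k, (x k).den
    have hD : D ≠ 0 := Finset.prod_ne_zero_iff.2 (fun k _ => (x k).den_nz)
    refine ⟨fun k => (x k).num * (D / (x k).den : ℕ), D, by exact_mod_cast hD, fun k => ?_⟩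
    have hdvd : (x k).den ∣ D := Finset.dvd_prod_of_mem _ (mem_univ k)
    have hden : ((x k).den : ℚ) ≠ 0 := by exact_mod_cast (x k).den_nz
    have h0 : (((D / (x k).den : ℕ) : ℤ) : ℚ) = (D : ℚ) / (x k).den := by
      rw [Int.cast_natCast, Nat.cast_div hdvd hden]
    rw [Int.cast_mul, h0]
    have h1 : x k = (x k).num / (x k).den := (Rat.num_div_den (x k)).symm
    conv_rhs => rw [h1]
    field_simp
  have hz0 : z ≠ 0 := by
    intro h
    apply hx
    funext k
    have := hz k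
    rw [h] at this
    simp only [Pi.zero_apply, Int.cast_zero] at this
    rcases mul_eq_zero.1 this.symm with h2 | h2
    · exact absurd h2 hD
    · exact h2
  obtain ⟨g, hg⟩ := (IsPrincipalIdealRing.principal (Ideal.span (Set.range z))).principal
  have hg' : Ideal.span (Set.range z) = Ideal.span {g} := hg
  have h1 : ∀ k, ∃ y, z k = g * y := by
    intro k
    have : z k ∈ Ideal.span {g} := by
      rw [← hg']; exact Ideal.subset_span ⟨k, rfl⟩
    obtain ⟨y, hy⟩ := Ideal.mem_span_singleton.1 this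
    exact ⟨y, hy⟩
  choose y hy using h1
  have h2 : g ∈ Ideal.span (Set.range z) := by
    rw [hg']; exact Ideal.mem_span_singleton_self g
  obtain ⟨a, ha⟩ := Ideal.mem_span_range_iff_exists_fun.1 h2
  have hg0 : g ≠ 0 := by
    intro h
    apply hz0
    funext k
    rw [hy k, h]; simp
  refine ⟨y, ⟨a, ?_⟩, D / g, fun k => ?_⟩
  · have h3 : g * ∑ k, a k * y k = g * 1 := by
      rw [mul_one, mul_sum]
      conv_rhs => rw [← ha]
      refine sum_congr rfl (fun k _ => ?_)
      rw [hy k]; ring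
    exact mul_left_cancel₀ hg0 h3
  · have hgq : (g : ℚ) ≠ 0 := by exact_mod_cast hg0
    have h4 : (z k : ℚ) = g * y k := by rw [hy k]; push_cast; rfl
    have h5 := hz k
    rw [h4] at h5
    field_simp
    linarith

/-- systems of forms in the boxes which have a common zero in `ℙⁿ(ℚ)` cut out by integral
hyperplanes with coefficients of absolute value at most `T`. -/
def Bad {n r : ℕ} (d : Fin r → ℕ) (H T : ℕ) : Set (Fin r → MvPolynomial (Fin (n + 1)) ℤ) :=
  {F | (∀ i, F i ∈ Box n (d i) H) ∧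
    ∃ x : Fin (n + 1) → ℚ, x ≠ 0 ∧ CutOut T x ∧ ∀ i, aeval x (F i) = 0}

theorem bad_finite {n r : ℕ} (d : Fin r → ℕ) (H T : ℕ) : (Bad (n := n) d H T).Finite := by
  refine (Set.Finite.pi' (fun i => finite_box n (d i) H)).subset ?_
  rintro F ⟨h, _⟩ i
  exact h i

/-- the constant for one form. -/
noncomputable def K (n d : ℕ) : ℝ :=
  (2 * ((n + 1) ^ d * (1 + n * d)) + 3 : ℝ) ^ (n + d).choose n

theorem K_nonneg (n d : ℕ) : 0 ≤ K n d := by unfold K; positivity

theorem upper {n r : ℕ} (d : Fin r → ℕ) (hsum : n + 2 ≤ ∑ i, d i) :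
    ∃ C : ℝ, ∀ H T : ℕ, 1 ≤ T → H ≤ T →
      (Nat.card (Bad (n := n) d H T) : ℝ) ≤
        C * (T : ℝ) ^ (∑ i, ((n + d i).choose n - 1)) := by
  classical
  refine ⟨(∏ i, K n (d i)) *
    ∑' y : Fin (n + 1) → ℤ, (‖(fun k => (y k : ℝ))‖⁻¹) ^ (n + 2), ?_⟩
  intro H T hT hHT
  set P : ℝ := ∏ i, K n (d i) with hP
  have hP0 : 0 ≤ P := prod_nonneg (fun i _ => K_nonneg n (d i))
  -- a primitive zero
  have key : ∀ F : Fin r → MvPolynomial (Fin (n + 1)) ℤ, ∃ y : Fin (n + 1) → ℤ,
      F ∈ Bad (n := n) d H T → (∃ a : Fin (n + 1) → ℤ, ∑ k, a k * y k = 1) ∧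
        CutOut T (fun k => (y k : ℚ)) ∧ ∀ i, F i ∈ Van n (d i) H y := by
    intro F
    by_cases hF : F ∈ Bad (n := n) d H T
    · obtain ⟨h1, x, hx, ⟨L, hL, hind, horth⟩, hz⟩ := hF
      obtain ⟨y, hy, c, hc⟩ := prim x hx
      refine ⟨y, fun _ => ⟨hy, ⟨L, hL, hind, fun j => ?_⟩, fun i => ⟨h1 i, ?_⟩⟩⟩
      · have := horth j
        have h2 : ∑ k, (L j k : ℚ) * (y k : ℚ) = c * ∑ k, (L j k : ℚ) * x k := by
          rw [mul_sum]
          refine sum_congr rfl (fun k _ => ?_)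
          rw [hc k]; ring
        rw [h2, this, mul_zero]
      · exact aeval_scale (F i) (h1 i).1 x c y hc (hz i)
    · exact ⟨0, fun h => absurd h hF⟩
  choose Y hY using key
  let B : Finset (Fin r → MvPolynomial (Fin (n + 1)) ℤ) := (bad_finite (n := n) d H T).toFinset
  have hB : ∀ F, F ∈ B ↔ F ∈ Bad (n := n) d H T := fun F => Set.Finite.mem_toFinset _
  have hcard : Nat.card (Bad (n := n) d H T) = #B := by
    rw [Nat.card_coe_set_eq, Set.ncard_eq_toFinset_card _ (bad_finite (n := n) d H T)]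
  rw [hcard, card_eq_sum_card_image Y B]
  push_cast
  have hone : ∀ y ∈ B.image Y, (#{F ∈ B | Y F = y} : ℝ) ≤
      P * (T : ℝ) ^ (∑ i, ((n + d i).choose n - 1)) * (‖(fun k => (y k : ℝ))‖⁻¹) ^ (n + 2) := by
    intro y hy
    obtain ⟨F0, hF0, rfl⟩ := Finset.mem_image.1 hy
    obtain ⟨hprim, ⟨L, hL, hind, horth⟩, -⟩ := hY F0 ((hB F0).1 hF0)
    set y := Y F0 with hydef
    -- the largest coordinate
    obtain ⟨k0, -, hk0⟩ := Finset.exists_max_image (univ : Finset (Fin (n + 1)))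
      (fun k => (y k).natAbs) univ_nonempty
    set q : ℕ := (y k0).natAbs with hq
    have hyne : y ≠ 0 := by
      rintro h
      obtain ⟨a, ha⟩ := hprim
      rw [h] at ha; simp at ha
    have hq1 : 1 ≤ q := by
      by_contra h
      apply hyne
      funext k
      have := hk0 k (mem_univ k)
      have h2 : (y k).natAbs = 0 := by omega
      simpa using h2
    have habs : |y k0| = (q : ℤ) := by rw [hq]; exact Int.abs_eq_natAbs _
    have hnorm : ‖(fun k => (y k : ℝ))‖ = q := by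
      apply le_antisymm
      · rw [pi_norm_le_iff_of_nonneg (by positivity)]
        intro k
        rw [Real.norm_eq_abs]
        have h3 : |y k| ≤ (q : ℤ) := by
          rw [Int.abs_eq_natAbs]; exact_mod_cast hk0 k (mem_univ k)
        exact_mod_cast h3
      · have h4 := norm_le_pi_norm (fun k => (y k : ℝ)) k0
        rw [Real.norm_eq_abs] at h4
        have h5 : |((y k0 : ℤ) : ℝ)| = q := by exact_mod_cast habs
        rw [← h5]; exact h4
    have hsub : {F ∈ B | Y F = y} ⊆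
        Fintype.piFinset (fun i => (finite_van n (d i) H y).toFinset) := by
      intro F hF
      rw [Finset.mem_filter] at hF
      rw [Fintype.mem_piFinset]
      intro i
      rw [Set.Finite.mem_toFinset]
      have := (hY F ((hB F).1 hF.1)).2.2 i
      rwa [hF.2] at this
    have h6 : (#{F ∈ B | Y F = y} : ℝ) ≤ ∏ i, (Nat.card (Van n (d i) H y) : ℝ) := by
      have h7 := card_le_card hsub
      rw [Fintype.card_piFinset] at h7
      have h8 : ∀ i, #((finite_van n (d i) H y).toFinset) = Nat.card (Van n (d i) H y) := by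
        intro i
        rw [Nat.card_coe_set_eq, Set.ncard_eq_toFinset_card _ (finite_van n (d i) H y)]
      simp_rw [h8] at h7
      exact_mod_cast h7
    refine h6.trans ?_
    have h9 : ∏ i, (Nat.card (Van n (d i) H y) : ℝ) ≤
        ∏ i, (K n (d i) * (T : ℝ) ^ ((n + d i).choose n - 1) * ((q : ℝ) ^ d i)⁻¹) := by
      refine prod_le_prod (fun i _ => Nat.cast_nonneg _) (fun i _ => ?_)
      exact count_real y hprim q hq1 k0 habs T hT L hL hind horth (d i) H hHT
    refine h9.trans ?_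
    rw [prod_mul_distrib, prod_mul_distrib, prod_pow_eq_pow_sum, prod_inv_distrib,
      prod_pow_eq_pow_sum, hnorm, inv_pow]
    refine mul_le_mul_of_nonneg_left ?_ (by positivity)
    have hq1r : (1 : ℝ) ≤ q := by exact_mod_cast hq1
    exact inv_anti₀ (by positivity) (pow_le_pow_right₀ hq1r hsum)
  calc ∑ y ∈ B.image Y, (#{F ∈ B | Y F = y} : ℝ)
      ≤ ∑ y ∈ B.image Y, P * (T : ℝ) ^ (∑ i, ((n + d i).choose n - 1)) *
          (‖(fun k => (y k : ℝ))‖⁻¹) ^ (n + 2) := sum_le_sum hone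
    _ = P * (T : ℝ) ^ (∑ i, ((n + d i).choose n - 1)) *
          ∑ y ∈ B.image Y, (‖(fun k => (y k : ℝ))‖⁻¹) ^ (n + 2) := by rw [mul_sum]
    _ ≤ P * (T : ℝ) ^ (∑ i, ((n + d i).choose n - 1)) *
          ∑' y : Fin (n + 1) → ℤ, (‖(fun k => (y k : ℝ))‖⁻¹) ^ (n + 2) := by
        refine mul_le_mul_of_nonneg_left ?_ (by positivity)
        exact (summ n).sum_le_tsum _ (fun y _ => by positivity)
    _ = _ := by ring

end Pool.Agent.Q256.CI
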