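import Mathlib
import Pool.Agent.Q256.CI.Lin

set_option autoImplicit false

namespace Pool.Agent.Q256.CI

open Finset MvPolynomial

/-- the sup norm of an integral vector. -/
def qq {m : ℕ} (y : Fin (m + 1) → ℤ) : ℕ := univ.sup (fun k => (y k).natAbs)

theorem le_qq {m : ℕ} (y : Fin (m + 1) → ℤ) (k : Fin (m + 1)) : |y k| ≤ (qq y : ℤ) := by
  rw [Int.abs_eq_natAbs]
  exact_mod_cast Finset.le_sup (f := fun k => (y k).natAbs) (mem_univ k)

theorem exists_qq {m : ℕ} (y : Fin (m + 1) → ℤ) : ∃ k, |y k| = (qq y : ℤ) := by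
  obtain ⟨k, -, hk⟩ := Finset.exists_mem_eq_sup (univ : Finset (Fin (m + 1))) univ_nonempty
    (fun k => (y k).natAbs)
  refine ⟨k, ?_⟩
  rw [Int.abs_eq_natAbs]
  exact_mod_cast hk.symm

theorem qq_pos {m : ℕ} (y : Fin (m + 1) → ℤ) (hy : y ≠ 0) : 1 ≤ qq y := by
  by_contra h
  apply hy
  funext k
  have h1 := le_qq y k
  have h2 : (qq y : ℤ) = 0 := by omega
  rw [h2] at h1
  exact abs_nonpos_iff.1 h1

theorem qq_le {m : ℕ} (y : Fin (m + 1) → ℤ) (B : ℕ) (h : ∀ k, |y k| ≤ (B : ℤ)) : qq y ≤ B := by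
  obtain ⟨k, hk⟩ := exists_qq y
  have := h k
  rw [hk] at this
  exact_mod_cast this

/-- the integral points of the line cut out by `L`. -/
def InL {n : ℕ} (L : Fin n → Fin (n + 2) → ℤ) (x : Fin (n + 2) → ℤ) : Prop :=
  ∀ j, ∑ k, L j k * x k = 0

/-- the map given by the rows. -/
def Lmap {n : ℕ} (L : Fin n → Fin (n + 2) → ℤ) : (Fin (n + 2) → ℚ) →ₗ[ℚ] (Fin n → ℚ) :=
  Matrix.mulVecLin (fun j k => (L j k : ℚ) : Matrix (Fin n) (Fin (n + 2)) ℚ)

theorem Lmap_apply {n : ℕ} (L : Fin n → Fin (n + 2) → ℤ) (x : Fin (n + 2) → ℚ) (j : Fin n) :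
    Lmap L x j = ∑ k, (L j k : ℚ) * x k := rfl

theorem finrank_ker {n : ℕ} (L : Fin n → Fin (n + 2) → ℤ)
    (hind : LinearIndependent ℚ (fun j => (fun k => (L j k : ℚ)))) :
    Module.finrank ℚ (LinearMap.ker (Lmap L)) = 2 := by
  have h1 := LinearMap.finrank_range_add_finrank_ker (Lmap L)
  have h2 : Module.finrank ℚ (LinearMap.range (Lmap L)) = n := by
    have h3 := LinearIndependent.rank_matrix (M := (fun j k => (L j k : ℚ) :
      Matrix (Fin n) (Fin (n + 2)) ℚ)) hind
    rw [Fintype.card_fin] at h3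
    exact h3
  rw [h2] at h1
  simp at h1
  omega

theorem clear {m : ℕ} (x : Fin (m + 1) → ℚ) :
    ∃ (z : Fin (m + 1) → ℤ) (D : ℚ), D ≠ 0 ∧ ∀ k, (z k : ℚ) = D * x k := by
  let D : ℕ := ∏ k, (x k).den
  have hD : D ≠ 0 := Finset.prod_ne_zero_iff.2 (fun k _ => (x k).den_nz)
  refine ⟨fun k => (x k).num * (D / (x k).den : ℕ), D, by exact_mod_cast hD, fun k => ?_⟩
  have hdvd : (x k).den ∣ D := Finset.dvd_prod_of_mem _ (mem_univ k)
  have hden : ((x k).den : ℚ) ≠ 0 := by exact_mod_cast (x k).den_nz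
  have h0 : (((D / (x k).den : ℕ) : ℤ) : ℚ) = (D : ℚ) / (x k).den := by
    rw [Int.cast_natCast, Nat.cast_div hdvd hden]
  rw [Int.cast_mul, h0]
  have h1 : x k = (x k).num / (x k).den := (Rat.num_div_den (x k)).symm
  conv_rhs => rw [h1]
  field_simp

/-- no single vector spans the line. -/
theorem exists_outside {n : ℕ} (L : Fin n → Fin (n + 2) → ℤ)
    (hind : LinearIndependent ℚ (fun j => (fun k => (L j k : ℚ)))) (u : Fin (n + 2) → ℤ) :
    ∃ x : Fin (n + 2) → ℤ, InL L x ∧ ∀ c : ℚ, (fun k => (x k : ℚ)) ≠ c • (fun k => (u k : ℚ)) := by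
  by_contra h
  push Not at h
  have h1 : LinearMap.ker (Lmap L) ≤ Submodule.span ℚ {(fun k => (u k : ℚ))} := by
    intro x hx
    obtain ⟨z, D, hD, hz⟩ := clear x
    have hzL : InL L z := by
      intro j
      have h2 : ∑ k, (L j k : ℚ) * x k = 0 := congrFun (LinearMap.mem_ker.1 hx) j
      have h3 : ∑ k, (L j k : ℚ) * (z k : ℚ) = 0 := by
        simp_rw [hz]
        have : ∀ k, (L j k : ℚ) * (D * x k) = D * ((L j k : ℚ) * x k) := fun k => by ring
        simp_rw [this]
        rw [← mul_sum, h2, mul_zero]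
      exact_mod_cast h3
    obtain ⟨c, hc⟩ := h z hzL
    rw [Submodule.mem_span_singleton]
    refine ⟨c / D, ?_⟩
    funext k
    have h4 := congrFun hc k
    simp only [Pi.smul_apply, smul_eq_mul] at h4 ⊢
    rw [hz k] at h4
    field_simp
    linarith
  have h2 := Submodule.finrank_mono h1
  rw [finrank_ker L hind] at h2
  have h3 : Module.finrank ℚ (Submodule.span ℚ {(fun k => (u k : ℚ))}) ≤ 1 := by
    have := finrank_span_le_card (R := ℚ) ({(fun k => (u k : ℚ))} : Set (Fin (n + 2) → ℚ))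
    simpa using this
  omega

/-- a reduced basis of the integral points of a line. -/
structure Reduced {n : ℕ} (L : Fin n → Fin (n + 2) → ℤ) (u v : Fin (n + 2) → ℤ) : Prop where
  hu : InL L u
  hv : InL L v
  u0 : u ≠ 0
  span : ∀ x, InL L x → ∃ s t : ℤ, ∀ k, x k = s * u k + t * v k
  le : qq u ≤ qq v
  half : ∀ θ : ℚ, ∃ k, (qq v : ℚ) ≤ 2 * |(v k : ℚ) + θ * u k|

theorem exists_reduced {n : ℕ} (L : Fin n → Fin (n + 2) → ℤ)
    (hind : LinearIndependent ℚ (fun j => (fun k => (L j k : ℚ)))) :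
    ∃ u v, Reduced L u v := by
  classical
  -- the shortest vector
  have hne : ∃ q : ℕ, ∃ x : Fin (n + 2) → ℤ, InL L x ∧ x ≠ 0 ∧ qq x = q := by
    obtain ⟨x, hx, hx2⟩ := exists_outside L hind 0
    refine ⟨_, x, hx, ?_, rfl⟩
    intro h
    apply hx2 0
    rw [h]; funext k; simp
  obtain ⟨u, hu, hu0, huq⟩ := Nat.find_spec hne
  have humin : ∀ x, InL L x → x ≠ 0 → qq u ≤ qq x := by
    intro x hx hx0
    rw [huq]
    exact Nat.find_min' hne ⟨x, hx, hx0, rfl⟩
  obtain ⟨k0, hk0⟩ := exists_qq u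
  have hq1 := qq_pos u hu0
  have huk : u k0 ≠ 0 := by
    intro h; rw [h] at hk0; simp at hk0; omega
  have hukq : (u k0 : ℚ) ≠ 0 := by exact_mod_cast huk
  -- the second vector, up to multiples of `u`
  let M : (Fin (n + 2) → ℤ) → ℕ := fun x => ∑ j, (u k0 * x j - u j * x k0).natAbs
  have hM0 : ∀ x, M x = 0 → ∃ c : ℚ, (fun k => (x k : ℚ)) = c • (fun k => (u k : ℚ)) := by
    intro x hx
    refine ⟨x k0 / u k0, ?_⟩
    funext k
    have h1 : (u k0 * x k - u k * x k0).natAbs = 0 := (Finset.sum_eq_zero_iff.1 hx) k (mem_univ k)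
    have h2 : u k0 * x k - u k * x k0 = 0 := by simpa using h1
    have h3 : (u k0 : ℚ) * x k = u k * x k0 := by exact_mod_cast (sub_eq_zero.1 h2)
    simp only [Pi.smul_apply, smul_eq_mul]
    field_simp
    linarith
  have hne2 : ∃ q : ℕ, ∃ x : Fin (n + 2) → ℤ, InL L x ∧ 0 < M x ∧ M x = q := by
    obtain ⟨x, hx, hx2⟩ := exists_outside L hind u
    refine ⟨_, x, hx, ?_, rfl⟩
    rcases Nat.eq_zero_or_pos (M x) with h | h
    · obtain ⟨c, hc⟩ := hM0 x h
      exact absurd hc (hx2 c)
    · exact h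
  obtain ⟨w, hw, hwpos, hwq⟩ := Nat.find_spec hne2
  have hwmin : ∀ x, InL L x → 0 < M x → M w ≤ M x := by
    intro x hx hx0
    rw [hwq]
    exact Nat.find_min' hne2 ⟨x, hx, hx0, rfl⟩
  -- the shortest representative
  have hne3 : ∃ q : ℕ, ∃ c : ℤ, qq (fun k => w k + c * u k) = q := ⟨_, 0, rfl⟩
  obtain ⟨c, hc⟩ := Nat.find_spec hne3
  set v : Fin (n + 2) → ℤ := fun k => w k + c * u k with hvdef
  have hvmin : ∀ e : ℤ, qq v ≤ qq (fun k => v k + e * u k) := by
    intro e
    rw [hc]
    refine Nat.find_min' hne3 ⟨c + e, ?_⟩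
    congr 1
    funext k
    simp only [hvdef]; ring
  have hvL : InL L v := by
    intro j
    simp only [hvdef, mul_add, sum_add_distrib]
    rw [hw j]
    have h1 : ∑ k, L j k * (c * u k) = c * ∑ k, L j k * u k := by
      rw [mul_sum]; exact sum_congr rfl (fun k _ => by ring)
    rw [h1, hu j]; simp
  have hMv : M v = M w := by
    refine sum_congr rfl (fun j _ => ?_)
    congr 1
    simp only [hvdef]; ring
  have hv0 : v ≠ 0 := by
    intro h
    rw [← hMv, h] at hwpos
    simp [M] at hwpos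
  -- the rational span
  have hspan : ∀ x, InL L x → ∃ a b : ℚ, ∀ k, (x k : ℚ) = a * u k + b * v k := by
    intro x hx
    have hli : LinearIndependent ℚ ![(fun k => (u k : ℚ)), (fun k => (v k : ℚ))] := by
      rw [LinearIndependent.pair_iff]
      intro a b hab
      have hb : b = 0 := by
        by_contra hb
        have h1 : (fun k => (v k : ℚ)) = (-a / b) • (fun k => (u k : ℚ)) := by
          funext k
          have := congrFun hab k
          simp only [Pi.add_apply, Pi.smul_apply, smul_eq_mul, Pi.zero_apply] at this ⊢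
          field_simp
          linarith
        have h2 : M v = 0 := by
          refine sum_eq_zero (fun j _ => ?_)
          have h3 := congrFun h1 j
          have h4 := congrFun h1 k0
          simp only [Pi.smul_apply, smul_eq_mul] at h3 h4
          have h5 : ((u k0 * v j - u j * v k0 : ℤ) : ℚ) = 0 := by
            push_cast; rw [h3, h4]; ring
          have h6 : u k0 * v j - u j * v k0 = 0 := by exact_mod_cast h5
          rw [h6]; rfl
        omega
      refine ⟨?_, hb⟩
      rw [hb] at hab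
      have := congrFun hab k0
      simp only [Pi.add_apply, Pi.smul_apply, smul_eq_mul, Pi.zero_apply, zero_mul,
        add_zero] at this
      exact (mul_eq_zero.1 this).resolve_right hukq
    have hle : Submodule.span ℚ (Set.range ![(fun k => (u k : ℚ)), (fun k => (v k : ℚ))]) ≤
        LinearMap.ker (Lmap L) := by
      rw [Submodule.span_le]
      rintro _ ⟨i, rfl⟩
      have hin : ∀ z : Fin (n + 2) → ℤ, InL L z → (fun k => (z k : ℚ)) ∈ LinearMap.ker (Lmap L) := by
        intro z hz
        rw [LinearMap.mem_ker]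
        funext j
        rw [Lmap_apply, Pi.zero_apply]
        have := hz j
        exact_mod_cast this
      fin_cases i
      · exact hin u hu
      · exact hin v hvL
    have hfin : Module.finrank ℚ (Submodule.span ℚ
        (Set.range ![(fun k => (u k : ℚ)), (fun k => (v k : ℚ))])) = 2 := by
      rw [finrank_span_eq_card hli]; simp
    have heq := Submodule.eq_of_le_of_finrank_eq hle (by rw [hfin, finrank_ker L hind])
    have hxm : (fun k => (x k : ℚ)) ∈ Submodule.span ℚ
        (Set.range ![(fun k => (u k : ℚ)), (fun k => (v k : ℚ))]) := by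
      rw [heq, LinearMap.mem_ker]
      funext j
      rw [Lmap_apply, Pi.zero_apply]
      have := hx j
      exact_mod_cast this
    obtain ⟨g, hg⟩ := (Submodule.mem_span_range_iff_exists_fun ℚ).1 hxm
    refine ⟨g 0, g 1, fun k => ?_⟩
    have := congrFun hg k
    simp only [Fin.sum_univ_two, Matrix.cons_val_zero, Matrix.cons_val_one, Pi.add_apply,
      Pi.smul_apply, smul_eq_mul] at this
    exact this.symm
  refine ⟨u, v, hu, hvL, hu0, ?_, humin v hvL hv0, ?_⟩
  · intro x hx
    obtain ⟨a, b, hab⟩ := hspan x hx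
    -- remove the integral part of `b`
    let z : Fin (n + 2) → ℤ := fun k => x k - ⌊b⌋ * v k
    have hzL : InL L z := by
      intro j
      simp only [z, mul_sub, sum_sub_distrib]
      rw [hx j]
      have h1 : ∑ k, L j k * (⌊b⌋ * v k) = ⌊b⌋ * ∑ k, L j k * v k := by
        rw [mul_sum]; exact sum_congr rfl (fun k _ => by ring)
      rw [h1, hvL j]; simp
    have hzq : ∀ k, (z k : ℚ) = a * u k + Int.fract b * v k := by
      intro k
      simp only [z]
      push_cast
      rw [hab k, Int.fract]; ring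
    have hMz : (M z : ℚ) = Int.fract b * M v := by
      simp only [M]
      push_cast
      rw [mul_sum]
      refine sum_congr rfl (fun j _ => ?_)
      rw [Nat.cast_natAbs, Nat.cast_natAbs]
      push_cast
      rw [hzq j, hzq k0, ← abs_of_nonneg (Int.fract_nonneg b), ← abs_mul,
        abs_of_nonneg (Int.fract_nonneg b)]
      congr 1; ring
    have hfb : Int.fract b = 0 := by
      by_contra hne
      have hpos : 0 < Int.fract b := lt_of_le_of_ne (Int.fract_nonneg b) (Ne.symm hne)
      have hMvpos : (0 : ℚ) < M v := by rw [hMv]; exact_mod_cast hwpos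
      have h1 : 0 < M z := by
        have : (0 : ℚ) < M z := by rw [hMz]; positivity
        exact_mod_cast this
      have h2 : (M w : ℚ) ≤ M z := by exact_mod_cast hwmin z hzL h1
      rw [hMz, ← hMv] at h2
      have h3 := Int.fract_lt_one b
      nlinarith
    -- remove the integral part of `a`
    let y : Fin (n + 2) → ℤ := fun k => z k - ⌊a⌋ * u k
    have hyL : InL L y := by
      intro j
      simp only [y, mul_sub, sum_sub_distrib]
      rw [hzL j]
      have h1 : ∑ k, L j k * (⌊a⌋ * u k) = ⌊a⌋ * ∑ k, L j k * u k := by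
        rw [mul_sum]; exact sum_congr rfl (fun k _ => by ring)
      rw [h1, hu j]; simp
    have hyq : ∀ k, (y k : ℚ) = Int.fract a * u k := by
      intro k
      simp only [y]
      push_cast
      rw [hzq k, hfb, Int.fract]; ring
    have hy0 : y = 0 := by
      by_contra hne
      have h1 := humin y hyL hne
      obtain ⟨k, hk⟩ := exists_qq y
      have h2 : (qq y : ℚ) = |(y k : ℚ)| := by
        have : ((qq y : ℤ) : ℚ) = ((|y k| : ℤ) : ℚ) := by rw [hk]
        push_cast at this; exact this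
      rw [hyq k, abs_mul, abs_of_nonneg (Int.fract_nonneg a)] at h2
      have h3 : |(u k : ℚ)| ≤ qq u := by exact_mod_cast le_qq u k
      have h4 := Int.fract_lt_one a
      have h5 : (qq u : ℚ) ≤ qq y := by exact_mod_cast h1
      have h6 : (1 : ℚ) ≤ qq u := by exact_mod_cast hq1
      have h7 : Int.fract a * |(u k : ℚ)| ≤ Int.fract a * qq u :=
        mul_le_mul_of_nonneg_left h3 (Int.fract_nonneg a)
      have h8 : Int.fract a * (qq u : ℚ) < 1 * qq u := by
        apply mul_lt_mul_of_pos_right h4; linarith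
      linarith
    refine ⟨⌊a⌋, ⌊b⌋, fun k => ?_⟩
    have h1 := congrFun hy0 k
    simp only [y, z, Pi.zero_apply] at h1
    linarith
  · intro θ
    let e : ℤ := round θ
    have hθ : |θ - e| ≤ 1 / 2 := abs_sub_round θ
    obtain ⟨k, hk⟩ := exists_qq (fun k => v k + e * u k)
    refine ⟨k, ?_⟩
    have h1 : (qq v : ℚ) ≤ |(v k : ℚ) + e * u k| := by
      have h2 : (qq v : ℤ) ≤ |v k + e * u k| := by
        rw [hk]; exact_mod_cast hvmin e
      exact_mod_cast h2
    have h2 : |(u k : ℚ)| ≤ qq u := by exact_mod_cast le_qq u k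
    have h3 : (qq u : ℚ) ≤ qq v := by exact_mod_cast humin v hvL hv0
    have h4 : |(θ - e) * (u k : ℚ)| ≤ 1 / 2 * qq v := by
      rw [abs_mul]
      exact mul_le_mul hθ (h2.trans h3) (abs_nonneg _) (by norm_num)
    have h5 : |(v k : ℚ) + e * u k| ≤ |(v k : ℚ) + θ * u k| + |(θ - e) * (u k : ℚ)| := by
      have : (v k : ℚ) + e * u k = ((v k : ℚ) + θ * u k) - (θ - e) * (u k : ℚ) := by ring
      rw [this]; exact abs_sub _ _
    linarith

end Pool.Agent.Q256.CI
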