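import Mathlib
import Pool.Agent.Q256.CI.Main
import Pool.Agent.Q256.CI.Red

set_option autoImplicit false

namespace Pool.Agent.Q256.CI

open Finset MvPolynomial

/-- every integer in `[0, T |y|^d)` is the value at `y` of a form in a box of size `K T`. -/
def Rep (n d K T : ℕ) (y : Fin (n + 1) → ℤ) : Prop :=
  ∀ m : ℕ, m < T * qq y ^ d → ∃ w ∈ Box n d (K * T), eval y w = m

theorem count_rep {n : ℕ} (y : Fin (n + 1) → ℤ) (K T : ℕ) (d H : ℕ) (hHT : H ≤ T)
    (hR : Rep n d K T y) :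
    Nat.card (Van n d H y) * (T * qq y ^ d) ≤ (2 * ((K + 1) * T) + 1) ^ (n + d).choose n := by
  classical
  have hR' : ∀ m : Fin (T * qq y ^ d), ∃ w ∈ Box n d (K * T), eval y w = ((m : ℕ) : ℤ) :=
    fun m => hR m.1 m.2
  choose w hw1 hw2 using hR'
  rw [← card_box]
  have hcard : Nat.card (Van n d H y) * (T * qq y ^ d) =
      Nat.card (Van n d H y × Fin (T * qq y ^ d)) := by
    rw [Nat.card_prod, Nat.card_fin]
  rw [hcard]
  have hmem : ∀ p : Van n d H y × Fin (T * qq y ^ d),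
      p.1.1 + w p.2 ∈ Box n d ((K + 1) * T) := by
    rintro ⟨⟨F, hF⟩, m⟩
    refine ⟨hF.1.1.add (hw1 _).1, fun α => ?_⟩
    rw [coeff_add]
    have h1 : |F.coeff α| ≤ (T : ℤ) := (hF.1.2 α).trans (by exact_mod_cast hHT)
    have h2 := (hw1 m).2 α
    refine (abs_add_le _ _).trans ?_
    push_cast at h2 ⊢
    linarith
  have : Finite (Box n d ((K + 1) * T)) := (finite_box _ _ _).to_subtype
  refine Nat.card_le_card_of_injective (fun p => (⟨_, hmem p⟩ : Box n d ((K + 1) * T))) ?_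
  rintro ⟨⟨F, hF⟩, m⟩ ⟨⟨G, hG⟩, m'⟩ h
  have h1 : F + w m = G + w m' := congrArg Subtype.val h
  have h2 := congrArg (eval y) h1
  rw [map_add, map_add, hF.2, hG.2, hw2, hw2, zero_add, zero_add] at h2
  have h3 : m = m' := by
    apply Fin.ext; exact_mod_cast h2
  subst h3
  have h4 : F = G := add_right_cancel h1
  subst h4
  rfl

theorem count_rep_real {n : ℕ} (y : Fin (n + 1) → ℤ) (hy : y ≠ 0) (K T : ℕ) (hT : 1 ≤ T)
    (d H : ℕ) (hHT : H ≤ T) (hR : Rep n d K T y) :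
    (Nat.card (Van n d H y) : ℝ) ≤
      (2 * K + 3 : ℝ) ^ (n + d).choose n *
        (T : ℝ) ^ ((n + d).choose n - 1) * (((qq y : ℕ) : ℝ) ^ d)⁻¹ := by
  have h := count_rep y K T d H hHT hR
  have hN : 1 ≤ (n + d).choose n := Nat.choose_pos (Nat.le_add_right _ _)
  set N := (n + d).choose n with hNdef
  have hT0 : (0 : ℝ) < T := by exact_mod_cast hT
  have hq1 := qq_pos y hy
  have hq0 : (0 : ℝ) < ((qq y : ℕ) : ℝ) := by exact_mod_cast hq1
  have hqr : (0 : ℝ) < ((qq y : ℕ) : ℝ) ^ d := by positivity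
  have h1 : (Nat.card (Van n d H y) : ℝ) * (T * (qq y : ℕ) ^ d) ≤
      ((2 * K + 3 : ℝ) * T) ^ N := by
    have h2 : ((Nat.card (Van n d H y) * (T * qq y ^ d) : ℕ) : ℝ) ≤
        (((2 * ((K + 1) * T) + 1) ^ N : ℕ) : ℝ) := by exact_mod_cast h
    push_cast at h2
    refine h2.trans (pow_le_pow_left₀ (by positivity) ?_ _)
    have h3 : (1 : ℝ) ≤ T := by exact_mod_cast hT
    nlinarith
  rw [mul_pow] at h1
  have h4 : (T : ℝ) ^ N = (T : ℝ) ^ (N - 1) * T := by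
    rw [← pow_succ]; congr 1; omega
  rw [h4] at h1
  have h5 : (Nat.card (Van n d H y) : ℝ) * (qq y : ℕ) ^ d ≤
      (2 * K + 3 : ℝ) ^ N * (T : ℝ) ^ (N - 1) := by
    have h6 : ((Nat.card (Van n d H y) : ℝ) * (qq y : ℕ) ^ d) * T ≤
        ((2 * K + 3 : ℝ) ^ N * (T : ℝ) ^ (N - 1)) * T := by
      calc _ = (Nat.card (Van n d H y) : ℝ) * (T * (qq y : ℕ) ^ d) := by ring
        _ ≤ _ := h1
        _ = _ := by ring
    exact le_of_mul_le_mul_right h6 hT0
  rw [← div_eq_mul_inv, le_div_iff₀ hqr]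
  exact h5

theorem norm_eq_qq {n : ℕ} (y : Fin (n + 1) → ℤ) : ‖(fun k => (y k : ℝ))‖ = (qq y : ℕ) := by
  apply le_antisymm
  · rw [pi_norm_le_iff_of_nonneg (by positivity)]
    intro k
    rw [Real.norm_eq_abs]
    exact_mod_cast le_qq y k
  · obtain ⟨k, hk⟩ := exists_qq y
    have h4 := norm_le_pi_norm (fun k => (y k : ℝ)) k
    rw [Real.norm_eq_abs] at h4
    have h5 : |((y k : ℤ) : ℝ)| = (qq y : ℕ) := by exact_mod_cast hk
    rw [← h5]; exact h4

/-- systems in the boxes with an integral zero which has the representation property. -/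
def RepSet {n r : ℕ} (d : Fin r → ℕ) (K H T : ℕ) : Set (Fin r → MvPolynomial (Fin (n + 1)) ℤ) :=
  {F | ∃ y : Fin (n + 1) → ℤ, y ≠ 0 ∧ ∀ i, F i ∈ Van n (d i) H y ∧ Rep n (d i) K T y}

theorem repSet_finite {n r : ℕ} (d : Fin r → ℕ) (K H T : ℕ) :
    (RepSet (n := n) d K H T).Finite := by
  refine (Set.Finite.pi' (fun i => finite_box n (d i) H)).subset ?_
  rintro F ⟨y, _, h⟩ i
  exact (h i).1.1

theorem upper_gen {n r : ℕ} (d : Fin r → ℕ) (hsum : n + 2 ≤ ∑ i, d i) (K : ℕ) :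
    ∃ C : ℝ, 0 ≤ C ∧ ∀ H T : ℕ, 1 ≤ T → H ≤ T →
      (Nat.card (RepSet (n := n) d K H T) : ℝ) ≤
        C * (T : ℝ) ^ (∑ i, ((n + d i).choose n - 1)) := by
  classical
  refine ⟨(∏ i, (2 * K + 3 : ℝ) ^ (n + d i).choose n) *
    ∑' y : Fin (n + 1) → ℤ, (‖(fun k => (y k : ℝ))‖⁻¹) ^ (n + 2), ?_, ?_⟩
  · exact mul_nonneg (prod_nonneg (fun i _ => by positivity)) (tsum_nonneg (fun y => by positivity))
  intro H T hT hHT
  set P : ℝ := ∏ i, (2 * K + 3 : ℝ) ^ (n + d i).choose n with hP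
  have hP0 : 0 ≤ P := prod_nonneg (fun i _ => by positivity)
  have key : ∀ F : Fin r → MvPolynomial (Fin (n + 1)) ℤ, ∃ y : Fin (n + 1) → ℤ,
      F ∈ RepSet (n := n) d K H T → y ≠ 0 ∧ ∀ i, F i ∈ Van n (d i) H y ∧ Rep n (d i) K T y := by
    intro F
    by_cases hF : F ∈ RepSet (n := n) d K H T
    · obtain ⟨y, hy⟩ := hF
      exact ⟨y, fun _ => hy⟩
    · exact ⟨0, fun h => absurd h hF⟩
  choose Y hY using key
  let B : Finset (Fin r → MvPolynomial (Fin (n + 1)) ℤ) :=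
    (repSet_finite (n := n) d K H T).toFinset
  have hB : ∀ F, F ∈ B ↔ F ∈ RepSet (n := n) d K H T := fun F => Set.Finite.mem_toFinset _
  have hcard : Nat.card (RepSet (n := n) d K H T) = #B := by
    rw [Nat.card_coe_set_eq, Set.ncard_eq_toFinset_card _ (repSet_finite (n := n) d K H T)]
  rw [hcard, card_eq_sum_card_image Y B]
  push_cast
  have hone : ∀ y ∈ B.image Y, (#{F ∈ B | Y F = y} : ℝ) ≤
      P * (T : ℝ) ^ (∑ i, ((n + d i).choose n - 1)) * (‖(fun k => (y k : ℝ))‖⁻¹) ^ (n + 2) := by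
    intro y hy
    obtain ⟨F0, hF0, rfl⟩ := Finset.mem_image.1 hy
    obtain ⟨hyne, hall⟩ := hY F0 ((hB F0).1 hF0)
    set y := Y F0 with hydef
    have hsub : {F ∈ B | Y F = y} ⊆
        Fintype.piFinset (fun i => (finite_van n (d i) H y).toFinset) := by
      intro F hF
      rw [Finset.mem_filter] at hF
      rw [Fintype.mem_piFinset]
      intro i
      rw [Set.Finite.mem_toFinset]
      have := ((hY F ((hB F).1 hF.1)).2 i).1
      rwa [hF.2] at this
    have h6 : (#{F ∈ B | Y F = y} : ℝ) ≤ ∏ i, (Nat.card (Van n (d i) H y) : ℝ) := by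
      have h7 := card_le_card hsub
      rw [Fintype.card_piFinset] at h7
      have h8 : ∀ i, #((finite_van n (d i) H y).toFinset) = Nat.card (Van n (d i) H y) := by
        intro i
        rw [Nat.card_coe_set_eq, Set.ncard_eq_toFinset_card _ (finite_van n (d i) H y)]
      simp_rw [h8] at h7
      exact_mod_cast h7
    refine h6.trans ?_
    have h9 : ∏ i, (Nat.card (Van n (d i) H y) : ℝ) ≤
        ∏ i, ((2 * K + 3 : ℝ) ^ (n + d i).choose n *
          (T : ℝ) ^ ((n + d i).choose n - 1) * (((qq y : ℕ) : ℝ) ^ d i)⁻¹) := by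
      refine prod_le_prod (fun i _ => Nat.cast_nonneg _) (fun i _ => ?_)
      exact count_rep_real y hyne K T hT (d i) H hHT (hall i).2
    refine h9.trans ?_
    rw [prod_mul_distrib, prod_mul_distrib, prod_inv_distrib, ← hP,
      prod_pow_eq_pow_sum univ (fun i => (n + d i).choose n - 1) (T : ℝ),
      prod_pow_eq_pow_sum univ d ((qq y : ℕ) : ℝ), norm_eq_qq, inv_pow]
    have hq1r : (1 : ℝ) ≤ ((qq y : ℕ) : ℝ) := by exact_mod_cast qq_pos y hyne
    have hq0r : (0 : ℝ) < ((qq y : ℕ) : ℝ) := by linarith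
    have hle : (((qq y : ℕ) : ℝ) ^ (∑ i, d i))⁻¹ ≤ (((qq y : ℕ) : ℝ) ^ (n + 2))⁻¹ :=
      inv_anti₀ (pow_pos hq0r _) (pow_le_pow_right₀ hq1r hsum)
    exact mul_le_mul_of_nonneg_left hle (mul_nonneg hP0 (by positivity))
  calc ∑ y ∈ B.image Y, (#{F ∈ B | Y F = y} : ℝ)
      ≤ ∑ y ∈ B.image Y, P * (T : ℝ) ^ (∑ i, ((n + d i).choose n - 1)) *
          (‖(fun k => (y k : ℝ))‖⁻¹) ^ (n + 2) := sum_le_sum hone
    _ = P * (T : ℝ) ^ (∑ i, ((n + d i).choose n - 1)) *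
          ∑ y ∈ B.image Y, (‖(fun k => (y k : ℝ))‖⁻¹) ^ (n + 2) := by rw [mul_sum]
    _ ≤ P * (T : ℝ) ^ (∑ i, ((n + d i).choose n - 1)) *
          ∑' y : Fin (n + 1) → ℤ, (‖(fun k => (y k : ℝ))‖⁻¹) ^ (n + 2) := by
        refine mul_le_mul_of_nonneg_left ?_ (by positivity)
        exact (summ n).sum_le_tsum _ (fun y _ => by positivity)
    _ = _ := by ring

end Pool.Agent.Q256.CI
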