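import Mathlib
import Pool.Agent.Q256.CI.Red

set_option autoImplicit false

namespace Pool.Agent.Q256.CI

open Finset MvPolynomial

section
variable {n : ℕ} {L : Fin n → Fin (n + 2) → ℤ} {u v : Fin (n + 2) → ℤ}

theorem Reduced.vpos (h : Reduced L u v) : 1 ≤ qq v := (qq_pos u h.u0).trans h.le

theorem Reduced.indep (h : Reduced L u v) (a b : ℚ)
    (hab : ∀ k, a * (u k : ℚ) + b * (v k : ℚ) = 0) : a = 0 ∧ b = 0 := by
  have hb : b = 0 := by
    by_contra hb
    obtain ⟨k, hk⟩ := h.half (a / b)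
    have h1 : (v k : ℚ) + a / b * u k = 0 := by
      have := hab k
      field_simp
      linarith
    rw [h1, abs_zero, mul_zero] at hk
    have h2 : (1 : ℚ) ≤ qq v := by exact_mod_cast h.vpos
    linarith
  refine ⟨?_, hb⟩
  by_contra ha
  apply h.u0
  funext k
  have := hab k
  rw [hb, zero_mul, add_zero] at this
  have h2 := (mul_eq_zero.1 this).resolve_left ha
  exact_mod_cast h2

theorem Reduced.indepZ (h : Reduced L u v) (a b c e : ℤ)
    (hab : ∀ k, a * u k + b * v k = c * u k + e * v k) : a = c ∧ b = e := by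
  have := h.indep ((a : ℚ) - c) ((b : ℚ) - e) (fun k => by
    have h1 : (a : ℚ) * u k + b * v k = c * u k + e * v k := by exact_mod_cast hab k
    linarith)
  constructor
  · have h1 : (a : ℚ) = c := by linarith [this.1]
    exact_mod_cast h1
  · have h1 : (b : ℚ) = e := by linarith [this.2]
    exact_mod_cast h1

theorem inL_div {z x : Fin (n + 2) → ℤ} {g : ℤ} (hg : g ≠ 0) (hz : InL L z)
    (hzx : ∀ k, z k = g * x k) : InL L x := by
  intro j
  have h1 := hz j
  simp_rw [hzx] at h1
  have h2 : g * ∑ k, L j k * x k = 0 := by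
    rw [← h1, mul_sum]; exact sum_congr rfl (fun k _ => by ring)
  exact (mul_eq_zero.1 h2).resolve_left hg

/-- integral linear forms take all pairs of values at a reduced basis. -/
theorem Reduced.surj (h : Reduced L u v) (a b : ℤ) :
    ∃ l : Fin (n + 2) → ℤ, ∑ k, l k * u k = a ∧ ∑ k, l k * v k = b := by
  classical
  -- `u` is primitive
  obtain ⟨l0, hl0⟩ : ∃ l : Fin (n + 2) → ℤ, ∑ k, l k * u k = 1 := by
    obtain ⟨g, hg⟩ := (IsPrincipalIdealRing.principal (Ideal.span (Set.range u))).principal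
    have hg' : Ideal.span (Set.range u) = Ideal.span {g} := hg
    have h1 : ∀ k, ∃ y, u k = g * y := by
      intro k
      have : u k ∈ Ideal.span {g} := by
        rw [← hg']; exact Ideal.subset_span ⟨k, rfl⟩
      obtain ⟨y, hy⟩ := Ideal.mem_span_singleton.1 this
      exact ⟨y, hy⟩
    choose y hy using h1
    have h2 : g ∈ Ideal.span (Set.range u) := by
      rw [hg']; exact Ideal.mem_span_singleton_self g
    obtain ⟨c, hc⟩ := Ideal.mem_span_range_iff_exists_fun.1 h2
    have hg0 : g ≠ 0 := by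
      intro h0
      apply h.u0
      funext k
      rw [hy k, h0]; simp
    obtain ⟨s, t, hst⟩ := h.span y (inL_div hg0 h.hu hy)
    have h3 := h.indepZ 1 0 (g * s) (g * t) (fun k => by
      rw [one_mul, zero_mul, add_zero]
      conv_lhs => rw [hy k, hst k]
      ring)
    refine ⟨fun k => s * c k, ?_⟩
    have h4 : ∑ k, s * c k * u k = s * ∑ k, c k * u k := by
      rw [mul_sum]; exact sum_congr rfl (fun k _ => by ring)
    rw [h4, hc, mul_comm]; exact h3.1.symm
  let φu : (Fin (n + 2) → ℤ) →ₗ[ℤ] ℤ :=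
    { toFun := fun w => ∑ k, w k * u k
      map_add' := by intro a b; simp [add_mul, sum_add_distrib]
      map_smul' := by intro c a; simp [mul_sum, mul_assoc] }
  let φv : (Fin (n + 2) → ℤ) →ₗ[ℤ] ℤ :=
    { toFun := fun w => ∑ k, w k * v k
      map_add' := by intro a b; simp [add_mul, sum_add_distrib]
      map_smul' := by intro c a; simp [mul_sum, mul_assoc] }
  let I : Ideal ℤ := Submodule.map φv (LinearMap.ker φu)
  obtain ⟨g, hg⟩ := (IsPrincipalIdealRing.principal I).principal
  have hg' : I = Ideal.span {g} := hg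
  have hmemI : ∀ l : Fin (n + 2) → ℤ, ∑ k, l k * u k = 0 → g ∣ ∑ k, l k * v k := by
    intro l hl
    have : (∑ k, l k * v k) ∈ I := Submodule.mem_map.2 ⟨l, LinearMap.mem_ker.2 hl, rfl⟩
    rw [hg'] at this
    exact Ideal.mem_span_singleton.1 this
  have hdvd : ∀ j k, g ∣ u j * v k - v j * u k := by
    intro j k
    have h1 := hmemI (fun i => u j * (if i = k then 1 else 0) - u k * (if i = j then 1 else 0)) (by
      simp only [sub_mul, sum_sub_distrib, mul_ite, mul_one, mul_zero, ite_mul, zero_mul,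
        sum_ite_eq', mem_univ, if_true]
      ring)
    simp only [sub_mul, sum_sub_distrib, mul_ite, mul_one, mul_zero, ite_mul, zero_mul,
      sum_ite_eq', mem_univ, if_true] at h1
    have h2 : u j * v k - v j * u k = u j * v k - u k * v j := by ring
    rw [h2]; exact h1
  set c : ℤ := ∑ k, l0 k * v k with hcdef
  have h5 : ∀ k, g ∣ v k - c * u k := by
    intro k
    have h6 : v k - c * u k = ∑ j, l0 j * (u j * v k - v j * u k) := by
      simp only [mul_sub, sum_sub_distrib]
      have h7 : ∑ j, l0 j * (u j * v k) = v k := by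
        have : ∑ j, l0 j * (u j * v k) = (∑ j, l0 j * u j) * v k := by
          rw [sum_mul]; exact sum_congr rfl (fun j _ => by ring)
        rw [this, hl0, one_mul]
      have h8 : ∑ j, l0 j * (v j * u k) = c * u k := by
        rw [hcdef, sum_mul]; exact sum_congr rfl (fun j _ => by ring)
      rw [h7, h8]
    rw [h6]
    exact Finset.dvd_sum (fun j _ => Dvd.dvd.mul_left (hdvd j k) _)
  choose z hz using h5
  have hzeq : ∀ k, v k = c * u k + g * z k := fun k => by have := hz k; linarith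
  have hg0 : g ≠ 0 := by
    intro h0
    have := h.indepZ 0 1 c 0 (fun k => by
      have := hzeq k
      rw [h0] at this
      linarith)
    omega
  have hzL : InL L z := by
    refine inL_div (z := fun k => g * z k) hg0 ?_ (fun k => rfl)
    intro j
    have h6 : ∀ k, L j k * (g * z k) = L j k * v k - c * (L j k * u k) := by
      intro k; rw [hzeq k]; ring
    rw [sum_congr rfl (fun k _ => h6 k), sum_sub_distrib, ← mul_sum, h.hv j, h.hu j]; simp
  obtain ⟨s, t, hst⟩ := h.span z hzL
  have h3 := h.indepZ 0 1 (c + g * s) (g * t) (fun k => by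
    have h6 := hzeq k
    rw [hst k] at h6
    have h7 : c * u k + g * (s * u k + t * v k) = (c + g * s) * u k + g * t * v k := by ring
    linarith)
  clear_value c
  have hgI : g ∈ I := by rw [hg']; exact Ideal.mem_span_singleton_self g
  obtain ⟨l1, hl1, hl2⟩ := Submodule.mem_map.1 hgI
  have hl1' : ∑ k, l1 k * u k = 0 := LinearMap.mem_ker.1 hl1
  have hl2' : ∑ k, l1 k * v k = g := hl2
  refine ⟨fun k => a * l0 k + (b - a * c) * t * l1 k, ?_, ?_⟩
  · have h6 : ∑ k, (a * l0 k + (b - a * c) * t * l1 k) * u k =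
        a * ∑ k, l0 k * u k + (b - a * c) * t * ∑ k, l1 k * u k := by
      rw [mul_sum, mul_sum, ← sum_add_distrib]; exact sum_congr rfl (fun k _ => by ring)
    rw [h6, hl0, hl1']; ring
  · have h6 : ∑ k, (a * l0 k + (b - a * c) * t * l1 k) * v k =
        a * ∑ k, l0 k * v k + (b - a * c) * t * ∑ k, l1 k * v k := by
      rw [mul_sum, mul_sum, ← sum_add_distrib]; exact sum_congr rfl (fun k _ => by ring)
    rw [h6, hl2', ← hcdef, mul_assoc, mul_comm t g, ← h3.2]; ring

/-- rational linear forms vanishing on the line are combinations of the rows. -/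
theorem Reduced.span_rows (h : Reduced L u v)
    (hind : LinearIndependent ℚ (fun j => (fun k => (L j k : ℚ))))
    (w : Fin (n + 2) → ℚ) (hwu : ∑ k, w k * u k = 0) (hwv : ∑ k, w k * v k = 0) :
    ∃ r : Fin n → ℚ, ∀ k, w k = ∑ j, r j * L j k := by
  classical
  let A : Matrix (Fin 2) (Fin (n + 2)) ℚ := ![(fun k => (u k : ℚ)), (fun k => (v k : ℚ))]
  have hli : LinearIndependent ℚ A.row := by
    have : LinearIndependent ℚ ![(fun k => (u k : ℚ)), (fun k => (v k : ℚ))] := by
      rw [LinearIndependent.pair_iff]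
      intro a b hab
      exact h.indep a b (fun k => by
        have := congrFun hab k
        simpa using this)
    exact this
  have hrank : Module.finrank ℚ (LinearMap.range A.mulVecLin) = 2 := by
    have := LinearIndependent.rank_matrix (M := A) hli
    rw [Fintype.card_fin] at this
    exact this
  have hker : Module.finrank ℚ (LinearMap.ker A.mulVecLin) = n := by
    have := LinearMap.finrank_range_add_finrank_ker A.mulVecLin
    rw [hrank] at this
    simp at this
    omega
  have hmem : ∀ x : Fin (n + 2) → ℚ, ∑ k, x k * u k = 0 → ∑ k, x k * v k = 0 →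
      x ∈ LinearMap.ker A.mulVecLin := by
    intro x h1 h2
    rw [LinearMap.mem_ker]
    funext i
    fin_cases i
    · change ∑ k, (u k : ℚ) * x k = 0
      rw [← h1]; exact sum_congr rfl (fun k _ => mul_comm _ _)
    · change ∑ k, (v k : ℚ) * x k = 0
      rw [← h2]; exact sum_congr rfl (fun k _ => mul_comm _ _)
  have hle : Submodule.span ℚ (Set.range (fun j => (fun k => (L j k : ℚ)))) ≤
      LinearMap.ker A.mulVecLin := by
    rw [Submodule.span_le]
    rintro _ ⟨j, rfl⟩
    refine hmem _ ?_ ?_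
    · change ∑ k, (L j k : ℚ) * (u k : ℚ) = 0
      have := h.hu j; exact_mod_cast this
    · change ∑ k, (L j k : ℚ) * (v k : ℚ) = 0
      have := h.hv j; exact_mod_cast this
  have hfin : Module.finrank ℚ (Submodule.span ℚ (Set.range (fun j => (fun k => (L j k : ℚ)))))
      = n := by
    rw [finrank_span_eq_card hind]; simp
  have heq := Submodule.eq_of_le_of_finrank_eq hle (by rw [hfin, hker])
  have hw : w ∈ Submodule.span ℚ (Set.range (fun j => (fun k => (L j k : ℚ)))) := by
    rw [heq]; exact hmem w hwu hwv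
  obtain ⟨r, hr⟩ := (Submodule.mem_span_range_iff_exists_fun ℚ).1 hw
  refine ⟨r, fun k => ?_⟩
  have := congrArg (fun f => f k) hr
  simp only [Finset.sum_apply, Pi.smul_apply, smul_eq_mul] at this
  exact this.symm

/-- small integral linear forms with given values at a reduced basis. -/
theorem Reduced.lin2 (h : Reduced L u v)
    (hind : LinearIndependent ℚ (fun j => (fun k => (L j k : ℚ)))) (T : ℕ)
    (hL : ∀ j k, |L j k| ≤ T) (a b : ℤ) :
    ∃ l : Fin (n + 2) → ℤ, ∑ k, l k * u k = a ∧ ∑ k, l k * v k = b ∧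
      ∀ k, |(l k : ℝ)| ≤ 3 * (|(a : ℝ)| / (qq u : ℕ)) + 2 * (|(b : ℝ)| / (qq v : ℕ)) + n * T := by
  classical
  obtain ⟨l, hl1, hl2⟩ := h.surj a b
  obtain ⟨k0, hk0⟩ := exists_qq u
  have hU := qq_pos u h.u0
  have hV := h.vpos
  have hUq : (0 : ℚ) < (qq u : ℕ) := by exact_mod_cast hU
  have hVq : (0 : ℚ) < (qq v : ℕ) := by exact_mod_cast hV
  have hu0 : (u k0 : ℚ) ≠ 0 := by
    intro h0
    have : u k0 = 0 := by exact_mod_cast h0
    rw [this] at hk0; simp at hk0; omega
  have huabs : |(u k0 : ℚ)| = (qq u : ℕ) := by exact_mod_cast hk0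
  obtain ⟨k1, hk1⟩ := h.half (-(v k0 : ℚ) / u k0)
  set p : ℚ := (v k1 : ℚ) + -(v k0 : ℚ) / u k0 * u k1 with hp
  have hp0 : p ≠ 0 := by
    intro h0
    rw [h0, abs_zero, mul_zero] at hk1
    linarith
  have hpabs : 0 < |p| := abs_pos.2 hp0
  set β : ℚ := (b - (v k0 : ℚ) / u k0 * a) / p with hβ
  set α : ℚ := (a - β * u k1) / u k0 with hα
  -- the rational solution
  let ρ : Fin (n + 2) → ℚ := fun k => (if k = k0 then α else 0) + (if k = k1 then β else 0)
  have hρ : ∀ x : Fin (n + 2) → ℤ, ∑ k, ρ k * (x k : ℚ) = α * x k0 + β * x k1 := by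
    intro x
    simp only [ρ, add_mul, sum_add_distrib, ite_mul, zero_mul, sum_ite_eq', mem_univ, if_true]
  have hρu : ∑ k, ρ k * (u k : ℚ) = a := by
    rw [hρ, hα, div_mul_cancel₀ _ hu0]; ring
  have hρv : ∑ k, ρ k * (v k : ℚ) = b := by
    rw [hρ, hα]
    have h1 : β * p = b - (v k0 : ℚ) / u k0 * a := by rw [hβ, div_mul_cancel₀ _ hp0]
    have h2 : (a - β * u k1) / u k0 * v k0 + β * v k1 = (v k0 : ℚ) / u k0 * a + β * p := by
      rw [hp]; field_simp; ring
    rw [h2, h1]; ring
  obtain ⟨r, hr⟩ := h.span_rows hind (fun k => (l k : ℚ) - ρ k)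
    (by
      simp only [sub_mul, sum_sub_distrib]
      rw [hρu]
      have : ∑ k, (l k : ℚ) * u k = a := by exact_mod_cast hl1
      rw [this]; ring)
    (by
      simp only [sub_mul, sum_sub_distrib]
      rw [hρv]
      have : ∑ k, (l k : ℚ) * v k = b := by exact_mod_cast hl2
      rw [this]; ring)
  refine ⟨fun k => l k - ∑ j, ⌊r j⌋ * L j k, ?_, ?_, ?_⟩
  · simp only [sub_mul, sum_sub_distrib, sum_mul]
    rw [hl1, sum_comm]
    have h2 : ∀ j, ∑ k, ⌊r j⌋ * L j k * u k = 0 := by
      intro j; simp_rw [mul_assoc]; rw [← mul_sum, h.hu j, mul_zero]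
    rw [sum_congr rfl (fun j _ => h2 j)]; simp
  · simp only [sub_mul, sum_sub_distrib, sum_mul]
    rw [hl2, sum_comm]
    have h2 : ∀ j, ∑ k, ⌊r j⌋ * L j k * v k = 0 := by
      intro j; simp_rw [mul_assoc]; rw [← mul_sum, h.hv j, mul_zero]
    rw [sum_congr rfl (fun j _ => h2 j)]; simp
  · intro k
    have hβabs : |β| ≤ 2 * (|(b : ℚ)| / (qq v : ℕ)) + 2 * (|(a : ℚ)| / (qq u : ℕ)) := by
      rw [hβ, abs_div, div_le_iff₀ hpabs]
      have h1 : |(b : ℚ) - (v k0 : ℚ) / u k0 * a| ≤ |(b : ℚ)| + (qq v : ℕ) * (|(a : ℚ)| / (qq u : ℕ)) := by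
        refine (abs_sub _ _).trans (add_le_add (le_refl _) ?_)
        rw [abs_mul, abs_div, huabs]
        have h2 : |(v k0 : ℚ)| ≤ (qq v : ℕ) := by exact_mod_cast le_qq v k0
        calc |(v k0 : ℚ)| / (qq u : ℕ) * |(a : ℚ)| = |(v k0 : ℚ)| * (|(a : ℚ)| / (qq u : ℕ)) := by ring
          _ ≤ _ := mul_le_mul_of_nonneg_right h2 (by positivity)
      have h3 : (|(b : ℚ)| + (qq v : ℕ) * (|(a : ℚ)| / (qq u : ℕ))) =
          (2 * (|(b : ℚ)| / (qq v : ℕ)) + 2 * (|(a : ℚ)| / (qq u : ℕ))) * ((qq v : ℕ) / 2) := by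
        field_simp
      refine h1.trans ?_
      rw [h3]
      refine mul_le_mul_of_nonneg_left ?_ (by positivity)
      linarith
    have hαabs : |α| ≤ |(a : ℚ)| / (qq u : ℕ) + |β| := by
      rw [hα, abs_div, huabs, div_le_iff₀ hUq, add_mul, div_mul_cancel₀ _ hUq.ne']
      refine (abs_sub _ _).trans (add_le_add (le_refl _) ?_)
      rw [abs_mul]
      have h2 : |(u k1 : ℚ)| ≤ (qq u : ℕ) := by exact_mod_cast le_qq u k1
      exact mul_le_mul_of_nonneg_left h2 (abs_nonneg _)
    have hk01 : k0 ≠ k1 := by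
      rintro rfl
      apply hp0
      rw [hp]; field_simp; ring
    have hρabs : |ρ k| ≤ 3 * (|(a : ℚ)| / (qq u : ℕ)) + 2 * (|(b : ℚ)| / (qq v : ℕ)) := by
      simp only [ρ]
      by_cases h1 : k = k0
      · subst h1
        rw [if_pos rfl, if_neg hk01, add_zero]
        linarith
      · rw [if_neg h1, zero_add]
        by_cases h2 : k = k1
        · rw [if_pos h2]
          have : 0 ≤ |(a : ℚ)| / (qq u : ℕ) := by positivity
          linarith
        · rw [if_neg h2, abs_zero]; positivity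
    have h3 : ((l k - ∑ j, ⌊r j⌋ * L j k : ℤ) : ℚ) = ρ k + ∑ j, Int.fract (r j) * L j k := by
      have h4 := hr k
      have h5 : ∑ j, Int.fract (r j) * (L j k : ℚ) =
          ∑ j, r j * (L j k : ℚ) - ∑ j, (⌊r j⌋ : ℚ) * (L j k : ℚ) := by
        rw [← sum_sub_distrib]
        refine sum_congr rfl (fun j _ => ?_)
        rw [← sub_mul]; rfl
      rw [h5, ← h4]
      push_cast; ring
    have h6 : |((l k - ∑ j, ⌊r j⌋ * L j k : ℤ) : ℚ)| ≤
        3 * (|(a : ℚ)| / (qq u : ℕ)) + 2 * (|(b : ℚ)| / (qq v : ℕ)) + n * T := by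
      rw [h3]
      refine (abs_add_le _ _).trans (add_le_add hρabs ?_)
      refine (abs_sum_le_sum_abs _ _).trans ?_
      calc ∑ j, |Int.fract (r j) * (L j k : ℚ)| ≤ ∑ _j : Fin n, (T : ℚ) := by
            refine sum_le_sum (fun j _ => ?_)
            rw [abs_mul, abs_of_nonneg (Int.fract_nonneg _)]
            have h7 : |(L j k : ℚ)| ≤ T := by exact_mod_cast hL j k
            have h8 : Int.fract (r j) ≤ 1 := (Int.fract_lt_one _).le
            calc Int.fract (r j) * |(L j k : ℚ)| ≤ 1 * (T : ℚ) :=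
                  mul_le_mul h8 h7 (abs_nonneg _) zero_le_one
              _ = T := one_mul _
        _ = n * T := by simp
    have h9 : ((|((l k - ∑ j, ⌊r j⌋ * L j k : ℤ) : ℚ)| : ℚ) : ℝ) ≤
        ((3 * (|(a : ℚ)| / (qq u : ℕ)) + 2 * (|(b : ℚ)| / (qq v : ℕ)) + n * T : ℚ) : ℝ) := by
      exact_mod_cast h6
    push_cast at h9 ⊢
    exact h9

end

end Pool.Agent.Q256.CI
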