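import Mathlib
import Pool.Agent.Q256.CI.Line
import Pool.Agent.Q256.CI.Gen

set_option autoImplicit false

namespace Pool.Agent.Q256.CI

open Finset MvPolynomial

/-- representation of binary forms on a line by forms with small coefficients. -/
theorem form2 {n : ℕ} {L : Fin n → Fin (n + 2) → ℤ} {u v : Fin (n + 2) → ℤ}
    (h : Reduced L u v)
    (hind : LinearIndependent ℚ (fun j => (fun k => (L j k : ℚ)))) (T : ℕ)
    (hL : ∀ j k, |L j k| ≤ T) (d : ℕ) :
    ∀ (A : ℝ) (_ : 0 ≤ A) (c : ℕ → ℤ)
      (_ : ∀ i, i ≤ d → |(c i : ℝ)| ≤ A * ((qq u : ℕ) : ℝ) ^ i * ((qq v : ℕ) : ℝ) ^ (d - i)),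
      ∃ w : MvPolynomial (Fin (n + 2)) ℤ, w.IsHomogeneous d ∧
        (∀ s t : ℤ, eval (fun k => s * u k + t * v k) w =
          ∑ i ∈ range (d + 1), c i * s ^ i * t ^ (d - i)) ∧
        ∀ α, |((w.coeff α : ℤ) : ℝ)| ≤ (((n : ℝ) + 2) * (n + 6)) ^ d * (A + T) := by
  classical
  have hU : (1 : ℝ) ≤ ((qq u : ℕ) : ℝ) := by exact_mod_cast qq_pos u h.u0
  have hV : (1 : ℝ) ≤ ((qq v : ℕ) : ℝ) := by exact_mod_cast h.vpos
  set U : ℝ := ((qq u : ℕ) : ℝ) with hUdef
  set V : ℝ := ((qq v : ℕ) : ℝ) with hVdef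
  induction d with
  | zero =>
    intro A hA c hc
    refine ⟨C (c 0), isHomogeneous_C _ _, fun s t => by simp, fun α => ?_⟩
    have h0 := hc 0 le_rfl
    simp only [pow_zero, mul_one, Nat.sub_zero] at h0
    rw [coeff_C]
    split_ifs with hα
    · simp only [pow_zero, one_mul]
      have : (0 : ℝ) ≤ T := Nat.cast_nonneg _
      linarith
    · simp only [Int.cast_zero, abs_zero, pow_zero, one_mul]
      positivity
  | succ d ih =>
    intro A hA c hc
    have hT0 : (0 : ℝ) ≤ T := Nat.cast_nonneg _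
    -- the linear forms
    have hlin : ∀ i : ℕ, ∃ l : Fin (n + 2) → ℤ,
        ∑ k, l k * u k = (if i = d then c (d + 1) else 0) ∧ ∑ k, l k * v k = c i ∧
        ∀ k, |(l k : ℝ)| ≤ 3 * (|((if i = d then c (d + 1) else 0 : ℤ) : ℝ)| / U) +
          2 * (|(c i : ℝ)| / V) + n * T := fun i => h.lin2 hind T hL _ _
    choose l hl1 hl2 hl3 using hlin
    have hbd : ∀ k : Fin (n + 2), ∀ i, i ≤ d →
        |(l i k : ℝ)| ≤ (5 * A + n * T) * U ^ i * V ^ (d - i) := by
      intro k i hi
      refine (hl3 i k).trans ?_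
      have h1 : |((if i = d then c (d + 1) else 0 : ℤ) : ℝ)| / U ≤ A * U ^ i * V ^ (d - i) := by
        split_ifs with hid
        · subst hid
          rw [div_le_iff₀ (by linarith)]
          have := hc (i + 1) le_rfl
          simp only [Nat.sub_self, pow_zero, mul_one] at this ⊢
          calc _ ≤ A * U ^ (i + 1) := this
            _ = _ := by ring
        · simp only [Int.cast_zero, abs_zero, zero_div]
          positivity
      have h2 : |(c i : ℝ)| / V ≤ A * U ^ i * V ^ (d - i) := by
        rw [div_le_iff₀ (by linarith)]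
        have := hc i (by omega)
        calc _ ≤ A * U ^ i * V ^ (d + 1 - i) := this
          _ = _ := by
            rw [show d + 1 - i = (d - i) + 1 by omega]; ring
      have h3 : (n : ℝ) * T ≤ n * T * U ^ i * V ^ (d - i) := by
        have e1 : (1 : ℝ) ≤ U ^ i := one_le_pow₀ hU
        have e2 : (1 : ℝ) ≤ V ^ (d - i) := one_le_pow₀ hV
        have e3 : (0 : ℝ) ≤ n * T := by positivity
        calc (n : ℝ) * T = n * T * 1 * 1 := by ring
          _ ≤ n * T * U ^ i * V ^ (d - i) := by gcongr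
      calc _ ≤ 3 * (A * U ^ i * V ^ (d - i)) + 2 * (A * U ^ i * V ^ (d - i)) +
            n * T * U ^ i * V ^ (d - i) := by gcongr
        _ = _ := by ring
    have hw : ∀ k : Fin (n + 2), ∃ w : MvPolynomial (Fin (n + 2)) ℤ, w.IsHomogeneous d ∧
        (∀ s t : ℤ, eval (fun k => s * u k + t * v k) w =
          ∑ i ∈ range (d + 1), l i k * s ^ i * t ^ (d - i)) ∧
        ∀ α, |((w.coeff α : ℤ) : ℝ)| ≤ (((n : ℝ) + 2) * (n + 6)) ^ d * ((5 * A + n * T) + T) :=
      fun k => ih (5 * A + n * T) (by positivity) (fun i => l i k) (hbd k)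
    choose w hw1 hw2 hw3 using hw
    refine ⟨∑ k, X k * w k, ?_, ?_, ?_⟩
    · apply IsHomogeneous.sum
      intro k _
      have := (isHomogeneous_X ℤ k).mul (hw1 k)
      exact (add_comm 1 d) ▸ this
    · intro s t
      rw [map_sum]
      have e1 : ∀ k, eval (fun k => s * u k + t * v k) (X k * w k) =
          ∑ i ∈ range (d + 1), ((l i k * u k) * (s ^ (i + 1) * t ^ (d - i)) +
            (l i k * v k) * (s ^ i * t ^ (d - i + 1))) := by
        intro k
        rw [map_mul, eval_X, hw2, mul_sum]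
        refine sum_congr rfl (fun i _ => ?_)
        ring
      simp_rw [e1]
      rw [sum_comm]
      simp_rw [sum_add_distrib, ← sum_mul]
      simp_rw [hl1, hl2]
      have e2 : ∑ i ∈ range (d + 1), (if i = d then c (d + 1) else 0) * (s ^ (i + 1) * t ^ (d - i)) =
          c (d + 1) * s ^ (d + 1) := by
        rw [Finset.sum_eq_single d]
        · simp
        · intro i _ hi
          simp [hi]
        · intro hd
          exact absurd (mem_range.2 (by omega)) hd
      rw [e2, sum_range_succ _ (d + 1)]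
      simp only [Nat.sub_self, pow_zero, mul_one]
      rw [add_comm]
      congr 1
      refine sum_congr rfl (fun i hi => ?_)
      rw [mem_range] at hi
      rw [show d + 1 - i = d - i + 1 by omega]
      ring
    · intro α
      rw [coeff_sum]
      push_cast
      refine (abs_sum_le_sum_abs _ _).trans ?_
      have e1 : ∀ k ∈ (univ : Finset (Fin (n + 2))), |((coeff α (X k * w k) : ℤ) : ℝ)| ≤
          (((n : ℝ) + 2) * (n + 6)) ^ d * ((5 * A + n * T) + T) := by
        intro k _
        rw [coeff_X_mul']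
        split_ifs with hk
        · exact hw3 k _
        · simp only [Int.cast_zero, abs_zero]
          positivity
      refine (sum_le_sum e1).trans ?_
      rw [sum_const, card_univ, Fintype.card_fin, nsmul_eq_mul, pow_succ]
      push_cast
      have e3 : (5 * A + n * T) + T ≤ ((n : ℝ) + 6) * (A + T) := by nlinarith [mul_nonneg (Nat.cast_nonneg n : (0:ℝ) ≤ n) hA]
      calc ((n : ℝ) + 2) * ((((n : ℝ) + 2) * (n + 6)) ^ d * ((5 * A + n * T) + T))
          ≤ ((n : ℝ) + 2) * ((((n : ℝ) + 2) * (n + 6)) ^ d * (((n : ℝ) + 6) * (A + T))) := by gcongr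
        _ = _ := by ring

/-- digits: the leading ones are small. -/
theorem digits (s t : ℤ) (hst : IsCoprime s t) (ht : t ≠ 0) (d : ℕ) :
    ∀ m : ℤ, ∃ c : ℕ → ℤ, ∑ i ∈ range (d + 1), c i * s ^ i * t ^ (d - i) = m ∧
      ∀ i, 1 ≤ i → |c i| ≤ |t| := by
  induction d with
  | zero =>
    intro m
    refine ⟨fun i => if i = 0 then m else 0, by simp, fun i hi => ?_⟩
    have : i ≠ 0 := by omega
    simp [this]
  | succ d ih =>
    intro m
    obtain ⟨e, hdvd, he⟩ : ∃ e : ℤ, t ∣ m - e * s ^ (d + 1) ∧ |e| ≤ |t| := by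
      obtain ⟨a, b, hab⟩ := (hst.pow_left : IsCoprime (s ^ (d + 1)) t)
      refine ⟨(a * m) % t, ?_, ?_⟩
      · have h1 : m - a * m * s ^ (d + 1) = t * (b * m) := by
          calc m - a * m * s ^ (d + 1) = m * (a * s ^ (d + 1) + b * t) - a * m * s ^ (d + 1) := by
                rw [hab, mul_one]
            _ = _ := by ring
        have h2 : (a * m) % t = a * m - t * ((a * m) / t) := by
          rw [Int.emod_def]
        rw [h2]
        refine ⟨b * m + (a * m / t) * s ^ (d + 1), ?_⟩
        linear_combination h1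
      · rw [abs_of_nonneg (Int.emod_nonneg _ ht)]
        exact (Int.emod_lt_abs _ ht).le
    obtain ⟨m', hm'⟩ := hdvd
    obtain ⟨c, hc1, hc2⟩ := ih m'
    refine ⟨fun i => if i = d + 1 then e else c i, ?_, ?_⟩
    · rw [sum_range_succ]
      simp only [if_true, Nat.sub_self, pow_zero, mul_one]
      have h1 : ∑ i ∈ range (d + 1), (if i = d + 1 then e else c i) * s ^ i * t ^ (d + 1 - i) =
          t * ∑ i ∈ range (d + 1), c i * s ^ i * t ^ (d - i) := by
        rw [mul_sum]
        refine sum_congr rfl (fun i hi => ?_)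
        rw [mem_range] at hi
        rw [if_neg (by omega), show d + 1 - i = d - i + 1 by omega]
        ring
      rw [h1, hc1, ← hm']
      ring
    · intro i hi
      dsimp only
      split_ifs
      · exact he
      · exact hc2 i hi

/-- the reflected version. -/
theorem digits' (s t : ℤ) (hst : IsCoprime s t) (hs : s ≠ 0) (d : ℕ) (m : ℤ) :
    ∃ c : ℕ → ℤ, ∑ i ∈ range (d + 1), c i * s ^ i * t ^ (d - i) = m ∧
      ∀ i, i < d → |c i| ≤ |s| := by
  obtain ⟨c, hc1, hc2⟩ := digits t s hst.symm hs d m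
  refine ⟨fun i => c (d - i), ?_, fun i hi => hc2 _ (by omega)⟩
  rw [← hc1, ← sum_range_reflect]
  refine sum_congr rfl (fun i hi => ?_)
  rw [mem_range] at hi
  have e1 : d + 1 - 1 - i = d - i := by omega
  have e2 : d - (d - i) = i := by omega
  simp only [e1, e2]
  ring

end Pool.Agent.Q256.CI
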