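import Mathlib
import Pool.Agent.Q256.CI.Main

set_option autoImplicit false

namespace Pool.Agent.Q256.CI

open Finset MvPolynomial

/-- every nonzero integral vector with coordinates at most `T` is cut out by hyperplanes with
coefficients at most `T`. -/
theorem cutOut_small {n : ℕ} (T : ℕ) (x : Fin (n + 1) → ℤ) (hx : x ≠ 0) (hT : ∀ k, |x k| ≤ T) :
    CutOut T (fun k => (x k : ℚ)) := by
  classical
  obtain ⟨k0, hk0⟩ : ∃ k0, x k0 ≠ 0 := by
    by_contra h
    push Not at h
    exact hx (funext h)
  refine ⟨fun j k => if k = k0.succAbove j then x k0 else if k = k0 then -x (k0.succAbove j) else 0,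
    fun j k => ?_, ?_, fun j => ?_⟩
  · beta_reduce
    split_ifs
    · exact hT k0
    · rw [abs_neg]; exact hT _
    · simp
  · rw [Fintype.linearIndependent_iff]
    intro g hg i
    have h1 := congrFun hg (k0.succAbove i)
    simp only [Finset.sum_apply, Pi.smul_apply, smul_eq_mul, Pi.zero_apply] at h1
    rw [Finset.sum_eq_single i] at h1
    · rw [if_pos rfl] at h1
      rcases mul_eq_zero.1 h1 with h2 | h2
      · exact h2
      · exact absurd (by exact_mod_cast h2) hk0
    · intro b _ hb
      have h3 : k0.succAbove i ≠ k0.succAbove b := fun h => hb (Fin.succAbove_right_injective h).symm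
      rw [if_neg h3, if_neg (Fin.succAbove_ne k0 i)]
      simp
    · intro h; exact absurd (mem_univ _) h
  · have h1 : k0 ≠ k0.succAbove j := (Fin.succAbove_ne k0 j).symm
    have h2 : ∀ k, ((if k = k0.succAbove j then x k0 else
        if k = k0 then -x (k0.succAbove j) else 0 : ℤ) : ℚ) * (x k : ℚ) =
        (if k = k0.succAbove j then (x k0 : ℚ) * x (k0.succAbove j) else 0) +
        (if k = k0 then -(x (k0.succAbove j) : ℚ) * x k0 else 0) := by
      intro k
      by_cases h3 : k = k0.succAbove j
      · subst h3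
        rw [if_pos rfl, if_pos rfl, if_neg (Ne.symm h1), add_zero]
      · rw [if_neg h3, if_neg h3]
        by_cases h4 : k = k0
        · subst h4
          rw [if_pos rfl, if_pos rfl]; push_cast; ring
        · rw [if_neg h4, if_neg h4]; simp
    rw [sum_congr rfl (fun k _ => h2 k), sum_add_distrib]
    simp only [sum_ite_eq', mem_univ, if_true]
    ring

theorem lower {n r : ℕ} (d : Fin r → ℕ) (H T : ℕ) (hT : 1 ≤ T) :
    (2 * H + 1) ^ (∑ i, ((n + d i).choose n - 1)) ≤ Nat.card (Bad (n := n) d H T) := by
  classical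
  let S : Fin r → Finset (Fin (n + 1) →₀ ℕ) := fun i =>
    (Finset.finsuppAntidiag (univ : Finset (Fin (n + 1))) (d i)).erase (Finsupp.single 0 (d i))
  have hS : ∀ i, #(S i) = (n + d i).choose n - 1 := by
    intro i
    rw [card_erase_of_mem, card_anti]
    rw [mem_anti]; simp
  have h1 : (2 * H + 1) ^ (∑ i, ((n + d i).choose n - 1)) = Nat.card (∀ i, SBox (S i) H) := by
    rw [Nat.card_pi, ← prod_pow_eq_pow_sum]
    refine prod_congr rfl (fun i _ => ?_)
    rw [card_sbox, hS]
  rw [h1]
  have hmem : ∀ F : (∀ i, SBox (S i) H), (fun i => (F i).1) ∈ Bad (n := n) d H T := by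
    intro F
    refine ⟨fun i => ?_, fun k => ((Pi.single (0 : Fin (n + 1)) (1 : ℤ) : Fin (n + 1) → ℤ) k : ℚ),
      ?_, ?_, fun i => ?_⟩
    · rw [box_eq]
      exact ⟨(F i).2.1, (F i).2.2.trans (erase_subset _ _)⟩
    · intro h
      have := congrFun h 0
      simp at this
    · refine cutOut_small T _ ?_ ?_
      · intro h
        have := congrFun h 0
        simp at this
      · intro k
        have h2 : |(Pi.single (0 : Fin (n + 1)) (1 : ℤ) : Fin (n + 1) → ℤ) k| ≤ 1 := by
          by_cases h3 : k = 0
          · subst h3; simp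
          · rw [Pi.single_eq_of_ne h3]; simp
        exact h2.trans (by exact_mod_cast hT)
    · rw [aeval_def, eval₂_eq']
      refine sum_eq_zero (fun α hα => ?_)
      have h2 := (F i).2.2 hα
      rw [Finset.mem_erase, mem_anti] at h2
      obtain ⟨h3, h4⟩ := h2
      obtain ⟨k, hk, hk2⟩ : ∃ k, k ≠ 0 ∧ α k ≠ 0 := by
        by_contra h
        push Not at h
        apply h3
        ext k
        by_cases hk : k = 0
        · subst hk
          rw [Finsupp.single_eq_same, ← h4, Finsupp.degree_eq_sum]
          rw [Finset.sum_eq_single 0]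
          · intro b _ hb; exact h b hb
          · intro h5; exact absurd (mem_univ _) h5
        · rw [h k hk, Finsupp.single_eq_of_ne hk]
      have h5 : ∏ k, (((Pi.single (0 : Fin (n + 1)) (1 : ℤ) : Fin (n + 1) → ℤ) k : ℤ) : ℚ) ^ α k
          = 0 := by
        apply prod_eq_zero (mem_univ k)
        rw [Pi.single_eq_of_ne hk]
        simp [hk2]
      rw [h5, mul_zero]
  have : Finite (Bad (n := n) d H T) := (bad_finite (n := n) d H T).to_subtype
  refine Nat.card_le_card_of_injective (fun F => (⟨_, hmem F⟩ : Bad (n := n) d H T)) ?_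
  intro F G h
  funext i
  apply Subtype.ext
  exact congrFun (congrArg Subtype.val h) i

theorem total {n r : ℕ} (d : Fin r → ℕ) (H : ℕ) :
    Nat.card {F : Fin r → MvPolynomial (Fin (n + 1)) ℤ // ∀ i, F i ∈ Box n (d i) H} =
      (2 * H + 1) ^ (∑ i, (n + d i).choose n) := by
  classical
  have e : {F : Fin r → MvPolynomial (Fin (n + 1)) ℤ // ∀ i, F i ∈ Box n (d i) H} ≃
      (∀ i, Box n (d i) H) := Equiv.subtypePiEquivPi
  rw [Nat.card_congr e, Nat.card_pi, ← prod_pow_eq_pow_sum]
  exact prod_congr rfl (fun i _ => card_box _ _ _)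

end Pool.Agent.Q256.CI
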