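import Mathlib
import Pool.Agent.Q256.CI.Frm

set_option autoImplicit false

namespace Pool.Agent.Q256.CI

open Finset MvPolynomial

theorem mono_bound {m : ℕ} (x z : Fin m → ℤ) (R δ : ℤ) (hR : 0 ≤ R) (hδ : 0 ≤ δ)
    (hx : ∀ k, |x k| ≤ R) (hz : ∀ k, |z k| ≤ R) (hxz : ∀ k, |x k - z k| ≤ δ)
    (α : Fin m →₀ ℕ) :
    |∏ k, z k ^ α k| ≤ R ^ α.degree ∧
      R * |∏ k, x k ^ α k - ∏ k, z k ^ α k| ≤ α.degree * δ * R ^ α.degree := by
  classical
  induction α using Finsupp.induction_linear with
  | zero => simp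
  | add f g hf hg =>
    obtain ⟨hf1, hf2⟩ := hf
    obtain ⟨hg1, hg2⟩ := hg
    have e1 : ∀ w : Fin m → ℤ, ∏ k, w k ^ (f + g) k = (∏ k, w k ^ f k) * ∏ k, w k ^ g k := by
      intro w
      rw [← prod_mul_distrib]
      exact prod_congr rfl (fun k _ => by rw [Finsupp.add_apply, pow_add])
    have hfx : |∏ k, x k ^ f k| ≤ R ^ f.degree := by
      rw [Finset.abs_prod, Finsupp.degree_eq_sum, ← prod_pow_eq_pow_sum]
      refine prod_le_prod (fun k _ => abs_nonneg _) (fun k _ => ?_)
      rw [abs_pow]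
      exact pow_le_pow_left₀ (abs_nonneg _) (hx k) _
    rw [e1, e1, map_add]
    refine ⟨?_, ?_⟩
    · rw [abs_mul, pow_add]
      exact mul_le_mul hf1 hg1 (abs_nonneg _) (by positivity)
    · set a := ∏ k, x k ^ f k
      set b := ∏ k, x k ^ g k
      set a' := ∏ k, z k ^ f k
      set b' := ∏ k, z k ^ g k
      have e2 : a * b - a' * b' = a * (b - b') + (a - a') * b' := by ring
      rw [e2]
      have e3 : |a * (b - b') + (a - a') * b'| ≤ |a| * |b - b'| + |a - a'| * |b'| := by
        refine (abs_add_le _ _).trans ?_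
        rw [abs_mul, abs_mul]
      have e4 : |a| * (R * |b - b'|) ≤ R ^ f.degree * (g.degree * δ * R ^ g.degree) :=
        mul_le_mul hfx hg2 (by positivity) (by positivity)
      have e5 : (R * |a - a'|) * |b'| ≤ (f.degree * δ * R ^ f.degree) * R ^ g.degree :=
        mul_le_mul hf2 hg1 (by positivity) (by positivity)
      calc R * |a * (b - b') + (a - a') * b'| ≤ R * (|a| * |b - b'| + |a - a'| * |b'|) := by gcongr
        _ = |a| * (R * |b - b'|) + (R * |a - a'|) * |b'| := by ring
        _ ≤ R ^ f.degree * (g.degree * δ * R ^ g.degree) +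
            (f.degree * δ * R ^ f.degree) * R ^ g.degree := by gcongr
        _ = _ := by push_cast; ring
  | single k e =>
    have hs : ∀ w : Fin m → ℤ, ∏ j, w j ^ (Finsupp.single k e) j = w k ^ e := by
      intro w
      rw [Finset.prod_eq_single k]
      · simp
      · intro j _ hj
        rw [Finsupp.single_apply, if_neg (Ne.symm hj), pow_zero]
      · intro h; exact absurd (mem_univ _) h
    rw [hs, hs, Finsupp.degree_single]
    refine ⟨by rw [abs_pow]; exact pow_le_pow_left₀ (abs_nonneg _) (hz k) _, ?_⟩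
    clear hs
    induction e with
    | zero => simp
    | succ e ih =>
      have e2 : x k ^ (e + 1) - z k ^ (e + 1) =
          x k * (x k ^ e - z k ^ e) + (x k - z k) * z k ^ e := by ring
      rw [e2]
      have hze : |z k ^ e| ≤ R ^ e := by
        rw [abs_pow]; exact pow_le_pow_left₀ (abs_nonneg _) (hz k) _
      have e3 : |x k * (x k ^ e - z k ^ e) + (x k - z k) * z k ^ e| ≤
          |x k| * |x k ^ e - z k ^ e| + |x k - z k| * |z k ^ e| := by
        refine (abs_add_le _ _).trans ?_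
        rw [abs_mul, abs_mul]
      calc R * |x k * (x k ^ e - z k ^ e) + (x k - z k) * z k ^ e|
          ≤ R * (|x k| * |x k ^ e - z k ^ e| + |x k - z k| * |z k ^ e|) := by gcongr
        _ = |x k| * (R * |x k ^ e - z k ^ e|) + R * (|x k - z k| * |z k ^ e|) := by ring
        _ ≤ R * (e * δ * R ^ e) + R * (δ * R ^ e) := by
            refine add_le_add ?_ ?_
            · exact mul_le_mul (hx k) ih (by positivity) hR
            · exact mul_le_mul_of_nonneg_left
                (mul_le_mul (hxz k) hze (abs_nonneg _) hδ) hR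
        _ = _ := by push_cast; ring

/-- size of a form. -/
theorem size {n d B : ℕ} (F : MvPolynomial (Fin (n + 1)) ℤ) (hF : F ∈ Box n d B)
    (z : Fin (n + 1) → ℤ) (R : ℤ) (hR : 0 ≤ R) (hz : ∀ k, |z k| ≤ R) :
    |eval z F| ≤ (n + d).choose n * (B * R ^ d) := by
  classical
  have hsub : F.support ⊆ Finset.finsuppAntidiag (univ : Finset (Fin (n + 1))) d := by
    rw [box_eq] at hF; exact hF.2
  rw [eval_eq']
  refine (abs_sum_le_sum_abs _ _).trans ?_
  have h1 : ∀ α ∈ F.support, |coeff α F * ∏ i, z i ^ α i| ≤ B * R ^ d := by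
    intro α hα
    have h2 := (mono_bound z z R 0 hR le_rfl hz hz (by simp) α).1
    have h3 := (mem_anti α).1 (hsub hα)
    rw [h3] at h2
    rw [abs_mul]
    exact mul_le_mul (hF.2 α) h2 (abs_nonneg _) (by positivity)
  refine (sum_le_sum h1).trans ?_
  rw [sum_const, nsmul_eq_mul]
  have h4 := card_le_card hsub
  rw [card_anti] at h4
  have h5 : (#F.support : ℤ) ≤ ((n + d).choose n : ℕ) := by exact_mod_cast h4
  exact mul_le_mul_of_nonneg_right h5 (by positivity)

/-- Lipschitz bound of a form. -/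
theorem lips {n d B : ℕ} (F : MvPolynomial (Fin (n + 1)) ℤ) (hF : F ∈ Box n d B)
    (x z : Fin (n + 1) → ℤ) (R δ : ℤ) (hR : 0 ≤ R) (hδ : 0 ≤ δ)
    (hx : ∀ k, |x k| ≤ R) (hz : ∀ k, |z k| ≤ R) (hxz : ∀ k, |x k - z k| ≤ δ) :
    R * |eval x F - eval z F| ≤ (n + d).choose n * (B * (d * δ * R ^ d)) := by
  classical
  have hsub : F.support ⊆ Finset.finsuppAntidiag (univ : Finset (Fin (n + 1))) d := by
    rw [box_eq] at hF; exact hF.2
  rw [eval_eq', eval_eq', ← sum_sub_distrib]
  have h0 : R * |∑ α ∈ F.support, (coeff α F * ∏ i, x i ^ α i - coeff α F * ∏ i, z i ^ α i)| ≤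
      R * ∑ α ∈ F.support, |coeff α F * ∏ i, x i ^ α i - coeff α F * ∏ i, z i ^ α i| :=
    mul_le_mul_of_nonneg_left (abs_sum_le_sum_abs _ _) hR
  refine h0.trans ?_
  rw [mul_sum]
  have h1 : ∀ α ∈ F.support, R * |coeff α F * ∏ i, x i ^ α i - coeff α F * ∏ i, z i ^ α i| ≤
      B * (d * δ * R ^ d) := by
    intro α hα
    have h2 := (mono_bound x z R δ hR hδ hx hz hxz α).2
    have h3 := (mem_anti α).1 (hsub hα)
    rw [h3] at h2
    rw [← mul_sub, abs_mul]
    calc R * (|coeff α F| * |∏ i, x i ^ α i - ∏ i, z i ^ α i|) =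
        |coeff α F| * (R * |∏ i, x i ^ α i - ∏ i, z i ^ α i|) := by ring
      _ ≤ B * (d * δ * R ^ d) := mul_le_mul (hF.2 α) h2 (by positivity) (by positivity)
  refine (sum_le_sum h1).trans ?_
  rw [sum_const, nsmul_eq_mul]
  have h4 := card_le_card hsub
  rw [card_anti] at h4
  have h5 : (#F.support : ℤ) ≤ ((n + d).choose n : ℕ) := by exact_mod_cast h4
  exact mul_le_mul_of_nonneg_right h5 (by positivity)

theorem dvd_eval {m : ℕ} (F : MvPolynomial (Fin m) ℤ) (x z : Fin m → ℤ) (t : ℤ)
    (h : ∀ k, t ∣ x k - z k) : t ∣ eval x F - eval z F := by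
  induction F using MvPolynomial.induction_on with
  | C a => simp
  | add p q hp hq =>
    rw [map_add, map_add]
    have : eval x p + eval x q - (eval z p + eval z q) =
      (eval x p - eval z p) + (eval x q - eval z q) := by ring
    rw [this]
    exact dvd_add hp hq
  | mul_X p k hp =>
    rw [map_mul, map_mul, eval_X, eval_X]
    have : eval x p * x k - eval z p * z k = (eval x p - eval z p) * x k +
      eval z p * (x k - z k) := by ring
    rw [this]
    exact dvd_add (hp.mul_right _) ((h k).mul_left _)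

theorem eval_smul' {m d : ℕ} (F : MvPolynomial (Fin m) ℤ) (hF : F.IsHomogeneous d)
    (x : Fin m → ℤ) (s : ℤ) : eval (fun k => s * x k) F = s ^ d * eval x F := by
  rw [eval_eq', eval_eq', mul_sum]
  refine sum_congr rfl (fun α hα => ?_)
  have h1 : α.degree = d := by
    by_contra h
    exact (mem_support_iff.1 hα) (hF.coeff_eq_zero h)
  have h2 : ∏ i, (s * x i) ^ α i = s ^ d * ∏ i, x i ^ α i := by
    simp_rw [mul_pow]
    rw [prod_mul_distrib, prod_pow_eq_pow_sum, ← h1, Finsupp.degree_eq_sum]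
  rw [h2]; ring

end Pool.Agent.Q256.CI
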