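import Mathlib
import Pool.Agent.Q256.CI.Bnd

set_option autoImplicit false
set_option maxHeartbeats 1000000

namespace Pool.Agent.Q256.CI

open Finset MvPolynomial

/-- constants. -/
def NN (n d : ℕ) : ℕ := (n + 1 + d).choose (n + 1)
def A0 (n d : ℕ) : ℕ := 2 ^ d + (d + 1) * (NN n d * d * 2 ^ d + NN n d)
def KK (n d : ℕ) : ℕ := ((n + 2) * (n + 6)) ^ d * (A0 n d + 1)

theorem rep_of_digits {n : ℕ} {L : Fin n → Fin (n + 2) → ℤ} {u v : Fin (n + 2) → ℤ}
    (h : Reduced L u v)
    (hind : LinearIndependent ℚ (fun j => (fun k => (L j k : ℚ)))) (T : ℕ)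
    (hL : ∀ j k, |L j k| ≤ T) (d : ℕ) (s t : ℤ)
    (H : ∀ m : ℕ, m < T * qq (fun k => s * u k + t * v k) ^ d → ∃ c : ℕ → ℤ,
      ∑ i ∈ range (d + 1), c i * s ^ i * t ^ (d - i) = m ∧
      ∀ i, i ≤ d → |(c i : ℝ)| ≤ ((A0 n d : ℝ) * T) * ((qq u : ℕ) : ℝ) ^ i * ((qq v : ℕ) : ℝ) ^ (d - i)) :
    Rep (n + 1) d (KK n d) T (fun k => s * u k + t * v k) := by
  intro m hm
  obtain ⟨c, hc1, hc2⟩ := H m hm
  obtain ⟨w, hw1, hw2, hw3⟩ := form2 h hind T hL d ((A0 n d : ℝ) * T) (by positivity) c hc2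
  refine ⟨w, ⟨hw1, fun α => ?_⟩, ?_⟩
  · have h1 := hw3 α
    have h2 : (((n : ℝ) + 2) * (n + 6)) ^ d * ((A0 n d : ℝ) * T + T) = ((KK n d * T : ℕ) : ℝ) := by
      unfold KK; push_cast; ring
    rw [h2] at h1
    exact_mod_cast h1
  · rw [hw2 s t, hc1]

theorem aux_sb (S U τ V N T E dd : ℝ) (d : ℕ) (hS : 0 < S) (hU : 0 < U) (hV : 0 < V) (hτ : 0 < τ)
    (hN : 0 ≤ N) (hT : 0 ≤ T) (hdd : 0 ≤ dd) (hcase : τ * V ≤ S * U) (hE : τ ≤ E)
    (h1 : (S * U + τ * V) * (S ^ d * E) ≤ N * (T * (dd * (τ * V) * (S * U + τ * V) ^ d))) :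
    S * U ≤ (N * dd * 2 ^ d) * T * V * U ^ d := by
  obtain ⟨R, hR⟩ : ∃ R : ℝ, R = S * U + τ * V := ⟨_, rfl⟩
  rw [← hR] at h1
  have hRpos : 0 < R := by rw [hR]; positivity
  have hR2 : R ≤ 2 * (S * U) := by linarith
  have h4 : R * (S ^ d * τ) ≤ N * (T * (dd * (τ * V) * R ^ d)) := by
    refine le_trans ?_ h1
    exact mul_le_mul_of_nonneg_left (mul_le_mul_of_nonneg_left hE (by positivity)) hRpos.le
  have h5 : (R * S ^ d) * τ ≤ (N * T * dd * V * R ^ d) * τ := by
    calc (R * S ^ d) * τ = R * (S ^ d * τ) := by ring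
      _ ≤ _ := h4
      _ = _ := by ring
  have h6 : R * S ^ d ≤ N * T * dd * V * R ^ d := le_of_mul_le_mul_right h5 hτ
  have h7 : (S * U) * S ^ d ≤ R * S ^ d := by
    have : S * U ≤ R := by rw [hR]; linarith [mul_pos hτ hV]
    exact mul_le_mul_of_nonneg_right this (by positivity)
  have h8 : R ^ d ≤ (2 * (S * U)) ^ d := pow_le_pow_left₀ hRpos.le hR2 d
  have h9 : (S * U) * S ^ d ≤ ((N * dd * 2 ^ d) * T * V * U ^ d) * S ^ d := by
    calc (S * U) * S ^ d ≤ R * S ^ d := h7
      _ ≤ N * T * dd * V * R ^ d := h6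
      _ ≤ N * T * dd * V * (2 * (S * U)) ^ d := mul_le_mul_of_nonneg_left h8 (by positivity)
      _ = _ := by rw [mul_pow, mul_pow]; ring
  exact le_of_mul_le_mul_right h9 (by positivity)

theorem rep_line {n : ℕ} {L : Fin n → Fin (n + 2) → ℤ} {u v : Fin (n + 2) → ℤ}
    (h : Reduced L u v)
    (hind : LinearIndependent ℚ (fun j => (fun k => (L j k : ℚ)))) (T : ℕ)
    (hL : ∀ j k, |L j k| ≤ T) (d : ℕ) (hd : 1 ≤ d)
    (F : MvPolynomial (Fin (n + 2)) ℤ) (hF : F ∈ Box (n + 1) d T) (hFu : eval u F ≠ 0)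
    (s t : ℤ) (hst : IsCoprime s t) (hy : eval (fun k => s * u k + t * v k) F = 0) :
    Rep (n + 1) d (KK n d) T (fun k => s * u k + t * v k) := by
  classical
  apply rep_of_digits h hind T hL d s t
  intro m hm
  have hU : (1 : ℝ) ≤ ((qq u : ℕ) : ℝ) := by exact_mod_cast qq_pos u h.u0
  have hUV : ((qq u : ℕ) : ℝ) ≤ ((qq v : ℕ) : ℝ) := by exact_mod_cast h.le
  -- evaluation at `s u`
  have hsu : eval (fun k => s * u k) F = s ^ d * eval u F := eval_smul' F hF.1 u s
  -- `t` divides `F(u)`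
  have hdvd : t ∣ eval u F := by
    have h1 : t ∣ eval (fun k => s * u k + t * v k) F - eval (fun k => s * u k) F :=
      dvd_eval F _ _ t (fun k => ⟨v k, by ring⟩)
    rw [hy, hsu, zero_sub, dvd_neg] at h1
    exact (IsCoprime.pow_right hst.symm).dvd_of_dvd_mul_left h1
  have ht : t ≠ 0 := by
    rintro rfl
    exact hFu (zero_dvd_iff.1 hdvd)
  have htF : |t| ≤ |eval u F| := by
    rw [Int.abs_eq_natAbs, Int.abs_eq_natAbs]
    exact_mod_cast Nat.le_of_dvd (Int.natAbs_pos.2 hFu) (Int.natAbs_dvd_natAbs.2 hdvd)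
  have hsize := size F hF u (qq u : ℕ) (by positivity) (le_qq u)
  have hyk : ∀ k, |s * u k + t * v k| ≤ |s| * (qq u : ℕ) + |t| * (qq v : ℕ) := by
    intro k
    refine (abs_add_le _ _).trans ?_
    rw [abs_mul, abs_mul]
    exact add_le_add (mul_le_mul_of_nonneg_left (le_qq u k) (abs_nonneg _))
      (mul_le_mul_of_nonneg_left (le_qq v k) (abs_nonneg _))
  -- real versions
  have htR : |(t : ℝ)| ≤ (NN n d : ℝ) * T * ((qq u : ℕ) : ℝ) ^ d := by
    have h1 : |t| ≤ (NN n d : ℤ) * (T * (qq u : ℕ) ^ d) := htF.trans hsize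
    have h2 : ((|t| : ℤ) : ℝ) ≤ (((NN n d : ℤ) * (T * (qq u : ℕ) ^ d) : ℤ) : ℝ) := by
      exact_mod_cast h1
    push_cast at h2
    calc |(t : ℝ)| ≤ _ := h2
      _ = _ := by ring
  obtain ⟨k0, hk0⟩ := exists_qq (fun k => s * u k + t * v k)
  have hQ : ((qq (fun k => s * u k + t * v k) : ℕ) : ℝ) ≤
      |(s : ℝ)| * ((qq u : ℕ) : ℝ) + |(t : ℝ)| * ((qq v : ℕ) : ℝ) := by
    have h1 := hyk k0
    rw [hk0] at h1
    exact_mod_cast h1
  have htF' : |(t : ℝ)| ≤ |((eval u F : ℤ) : ℝ)| := by exact_mod_cast htF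
  have hmR : (m : ℝ) ≤ T * ((qq (fun k => s * u k + t * v k) : ℕ) : ℝ) ^ d := by
    have : m ≤ T * qq (fun k => s * u k + t * v k) ^ d := hm.le
    exact_mod_cast this
  set Q : ℝ := ((qq (fun k => s * u k + t * v k) : ℕ) : ℝ) with hQdef
  have hQ0 : 0 ≤ Q := Nat.cast_nonneg _
  have hlips := lips F hF (fun k => s * u k + t * v k) (fun k => s * u k)
    (|s| * (qq u : ℕ) + |t| * (qq v : ℕ)) (|t| * (qq v : ℕ)) (by positivity) (by positivity)
    hyk (by
      intro k
      rw [abs_mul]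
      have := mul_le_mul_of_nonneg_left (le_qq u k) (abs_nonneg s)
      have h2 : (0 : ℤ) ≤ |t| * (qq v : ℕ) := by positivity
      linarith) (by
      intro k
      have : s * u k + t * v k - s * u k = t * v k := by ring
      rw [this, abs_mul]
      exact mul_le_mul_of_nonneg_left (le_qq v k) (abs_nonneg _))
  rw [hy, hsu, zero_sub, abs_neg, abs_mul, abs_pow] at hlips
  set U : ℝ := ((qq u : ℕ) : ℝ) with hUdef
  set V : ℝ := ((qq v : ℕ) : ℝ) with hVdef
  have hV : 1 ≤ V := hU.trans hUV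
  have hU0 : 0 < U := by linarith
  have hV0 : 0 < V := by linarith
  have hT0 : (0 : ℝ) ≤ T := Nat.cast_nonneg _
  have hN0 : (0 : ℝ) ≤ (NN n d : ℝ) := Nat.cast_nonneg _
  set S : ℝ := |(s : ℝ)| with hSdef
  set τ : ℝ := |(t : ℝ)| with hτdef
  have hτ0 : 0 < τ := by rw [hτdef]; exact abs_pos.2 (by exact_mod_cast ht)
  have hS0 : 0 ≤ S := abs_nonneg _
  have hA0 : (A0 n d : ℝ) = 2 ^ d + ((d : ℝ) + 1) * (NN n d * d * 2 ^ d + NN n d) := by
    unfold A0; push_cast; ring
  set K1 : ℝ := (NN n d : ℝ) * d * 2 ^ d with hK1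
  have hK10 : 0 ≤ K1 := by positivity
  have hmid : ∀ i, i ≤ d → U ^ d ≤ U ^ i * V ^ (d - i) := by
    intro i hi
    calc U ^ d = U ^ i * U ^ (d - i) := by rw [← pow_add]; congr 1; omega
      _ ≤ U ^ i * V ^ (d - i) := by gcongr
  rcases le_total (S * U) (τ * V) with hcase | hcase
  · -- Case B
    obtain ⟨c, hc1, hc2⟩ := digits s t hst ht d m
    refine ⟨c, hc1, fun i hi => ?_⟩
    rcases Nat.eq_zero_or_pos i with rfl | hi0
    · -- the digit of index 0
      rw [pow_zero, mul_one, Nat.sub_zero]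
      have h1 : (c 0 : ℝ) * (t : ℝ) ^ d = m - ∑ i ∈ range d, (c (i + 1) : ℝ) * s ^ (i + 1) * t ^ (d - (i + 1)) := by
        have h2 : ((∑ i ∈ range (d + 1), c i * s ^ i * t ^ (d - i) : ℤ) : ℝ) = ((m : ℤ) : ℝ) := by
          rw [hc1]
        rw [sum_range_succ'] at h2
        push_cast at h2
        simp only [pow_zero, mul_one, Nat.sub_zero] at h2
        linarith
      have h3 : |(c 0 : ℝ)| * τ ^ d ≤ m + ∑ i ∈ range d, τ * (τ ^ d * (V / U) ^ d) := by
        have h4 : |(c 0 : ℝ) * (t : ℝ) ^ d| = |(c 0 : ℝ)| * τ ^ d := by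
          rw [abs_mul, abs_pow]
        rw [← h4, h1]
        refine (abs_sub _ _).trans ?_
        refine add_le_add (le_of_eq (abs_of_nonneg (Nat.cast_nonneg _))) ?_
        refine (abs_sum_le_sum_abs _ _).trans (sum_le_sum (fun i hi => ?_))
        rw [mem_range] at hi
        rw [abs_mul, abs_mul, abs_pow, abs_pow, mul_assoc]
        have h5 : |(c (i + 1) : ℝ)| ≤ τ := by
          have := (Int.cast_le (R := ℝ)).2 (hc2 (i + 1) (by omega))
          rwa [Int.cast_abs, Int.cast_abs] at this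
        have h6 : S ≤ τ * (V / U) := by
          rw [mul_div_assoc', le_div_iff₀ hU0]; exact hcase
        have hρ : 1 ≤ V / U := by rw [le_div_iff₀ hU0]; linarith
        have h7 : S ^ (i + 1) * τ ^ (d - (i + 1)) ≤ τ ^ d * (V / U) ^ d := by
          calc S ^ (i + 1) * τ ^ (d - (i + 1)) ≤ (τ * (V / U)) ^ (i + 1) * τ ^ (d - (i + 1)) := by
                gcongr
            _ = (τ ^ (i + 1) * τ ^ (d - (i + 1))) * (V / U) ^ (i + 1) := by
                rw [mul_pow]; ring
            _ = τ ^ d * (V / U) ^ (i + 1) := by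
                rw [← pow_add]; congr 2; omega
            _ ≤ τ ^ d * (V / U) ^ d := by
                have : (V / U) ^ (i + 1) ≤ (V / U) ^ d := pow_le_pow_right₀ hρ (by omega)
                gcongr
        exact mul_le_mul h5 h7 (by positivity) hτ0.le
      rw [sum_const, card_range, nsmul_eq_mul] at h3
      have h8 : (m : ℝ) ≤ T * (2 ^ d * τ ^ d * V ^ d) := by
        refine hmR.trans ?_
        have : Q ≤ 2 * τ * V := by linarith
        calc (T : ℝ) * Q ^ d ≤ T * (2 * τ * V) ^ d := by gcongr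
          _ = _ := by rw [mul_pow, mul_pow]
      have h9 : |(c 0 : ℝ)| * τ ^ d ≤ (T * 2 ^ d * V ^ d + d * (τ * (V / U) ^ d)) * τ ^ d := by
        calc _ ≤ _ := h3
          _ ≤ T * (2 ^ d * τ ^ d * V ^ d) + d * (τ * (τ ^ d * (V / U) ^ d)) := by gcongr
          _ = _ := by ring
      have h10 : |(c 0 : ℝ)| ≤ T * 2 ^ d * V ^ d + d * (τ * (V / U) ^ d) :=
        le_of_mul_le_mul_right h9 (by positivity)
      have h11 : τ * (V / U) ^ d ≤ NN n d * T * V ^ d := by
        rw [div_pow, mul_div_assoc', div_le_iff₀ (by positivity)]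
        calc τ * V ^ d ≤ (NN n d * T * U ^ d) * V ^ d := by gcongr
          _ = _ := by ring
      refine h10.trans ?_
      rw [hA0]
      have h12 : (d : ℝ) * (τ * (V / U) ^ d) ≤ d * (NN n d * T * V ^ d) := by gcongr
      have h13 : (T : ℝ) * 2 ^ d * V ^ d + d * (NN n d * T * V ^ d) ≤
          (2 ^ d + ((d : ℝ) + 1) * (K1 + NN n d)) * T * V ^ d := by
        have : (0 : ℝ) ≤ ((d : ℝ) + 1) * K1 + NN n d := by positivity
        have h14 : (0 : ℝ) ≤ (((d : ℝ) + 1) * K1 + NN n d) * (T * V ^ d) := by positivity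
        nlinarith [h14]
      linarith
    · have h1 : |(c i : ℝ)| ≤ τ := by
        have := (Int.cast_le (R := ℝ)).2 (hc2 i hi0)
        rwa [Int.cast_abs, Int.cast_abs] at this
      have h2 := hmid i hi
      calc |(c i : ℝ)| ≤ τ := h1
        _ ≤ NN n d * T * U ^ d := htR
        _ ≤ NN n d * T * (U ^ i * V ^ (d - i)) := by gcongr
        _ ≤ (A0 n d : ℝ) * T * (U ^ i * V ^ (d - i)) := by
            have : (NN n d : ℝ) ≤ A0 n d := by
              rw [hA0]
              have h3 : (0 : ℝ) ≤ 2 ^ d := by positivity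
              have h4 : (0 : ℝ) ≤ d * (K1 + NN n d) + K1 := by positivity
              nlinarith
            gcongr
        _ = _ := by ring
  · -- Case A
    have hSpos : 0 < S := by
      have h1 : 0 < τ * V := by positivity
      by_contra hneg
      have h2 : S = 0 := le_antisymm (not_lt.1 hneg) hS0
      rw [h2, zero_mul] at hcase
      linarith
    have hs : s ≠ 0 := by
      rintro rfl
      simp [hSdef] at hSpos
    -- bound of `|s|`
    have hsb : S * U ≤ K1 * T * V * U ^ d := by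
      have h1 : (S * U + τ * V) * (S ^ d * |((eval u F : ℤ) : ℝ)|) ≤
          (NN n d : ℝ) * (T * (d * (τ * V) * (S * U + τ * V) ^ d)) := by
        have h2 : (((|s| * (qq u : ℕ) + |t| * (qq v : ℕ)) * (|s| ^ d * |eval u F|) : ℤ) : ℝ) ≤
            (((NN n d : ℤ) * (T * (d * (|t| * (qq v : ℕ)) *
              (|s| * (qq u : ℕ) + |t| * (qq v : ℕ)) ^ d)) : ℤ) : ℝ) := Int.cast_le.2 hlips
        push_cast at h2
        exact h2
      exact aux_sb S U τ V (NN n d) T _ d d hSpos hU0 hV0 hτ0 hN0 hT0 (Nat.cast_nonneg _) hcase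
        htF' h1
    obtain ⟨c, hc1, hc2⟩ := digits' s t hst hs d m
    refine ⟨c, hc1, fun i hi => ?_⟩
    rcases Nat.lt_or_ge i d with hid | hid
    · have h1 : |(c i : ℝ)| ≤ S := by
        have := (Int.cast_le (R := ℝ)).2 (hc2 i hid)
        rwa [Int.cast_abs, Int.cast_abs] at this
      obtain ⟨e, rfl⟩ : ∃ e, d = e + 1 := ⟨d - 1, by omega⟩
      have h2 : S ≤ K1 * T * V * U ^ e := by
        have : S * U ≤ (K1 * T * V * U ^ e) * U := by
          calc S * U ≤ _ := hsb
            _ = _ := by ring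
        exact le_of_mul_le_mul_right this hU0
      have h3 : V * U ^ e ≤ U ^ i * V ^ (e + 1 - i) := by
        calc V * U ^ e = V * (U ^ i * U ^ (e - i)) := by
              rw [← pow_add]; congr 2; omega
          _ ≤ V * (U ^ i * V ^ (e - i)) := by gcongr
          _ = _ := by
              rw [show e + 1 - i = (e - i) + 1 by omega]; ring
      calc |(c i : ℝ)| ≤ S := h1
        _ ≤ K1 * T * V * U ^ e := h2
        _ = K1 * T * (V * U ^ e) := by ring
        _ ≤ K1 * T * (U ^ i * V ^ (e + 1 - i)) := by gcongr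
        _ ≤ (A0 n (e + 1) : ℝ) * T * (U ^ i * V ^ (e + 1 - i)) := by
            have : K1 ≤ (A0 n (e + 1) : ℝ) := by
              rw [hA0]
              have h3 : (0 : ℝ) ≤ 2 ^ (e + 1) := by positivity
              have h4 : (0 : ℝ) ≤ ((e + 1 : ℕ) : ℝ) * (K1 + NN n (e + 1)) + NN n (e + 1) := by positivity
              nlinarith
            gcongr
        _ = _ := by ring
    · have hid' : i = d := le_antisymm hi hid
      subst hid'
      rw [Nat.sub_self, pow_zero, mul_one]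
      have h1 : (c i : ℝ) * (s : ℝ) ^ i = m - ∑ j ∈ range i, (c j : ℝ) * s ^ j * t ^ (i - j) := by
        have h2 : ((∑ j ∈ range (i + 1), c j * s ^ j * t ^ (i - j) : ℤ) : ℝ) = ((m : ℤ) : ℝ) := by
          rw [hc1]
        rw [sum_range_succ] at h2
        push_cast at h2
        simp only [Nat.sub_self, pow_zero, mul_one] at h2
        linarith
      have hσ : U / V ≤ 1 := by rw [div_le_one hV0]; exact hUV
      have hσ0 : 0 ≤ U / V := by positivity
      have h3 : |(c i : ℝ)| * S ^ i ≤ m + ∑ j ∈ range i, S * (S ^ i * (U / V)) := by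
        have h4 : |(c i : ℝ) * (s : ℝ) ^ i| = |(c i : ℝ)| * S ^ i := by
          rw [abs_mul, abs_pow]
        rw [← h4, h1]
        refine (abs_sub _ _).trans ?_
        refine add_le_add (le_of_eq (abs_of_nonneg (Nat.cast_nonneg _))) ?_
        refine (abs_sum_le_sum_abs _ _).trans (sum_le_sum (fun j hj => ?_))
        rw [mem_range] at hj
        rw [abs_mul, abs_mul, abs_pow, abs_pow, mul_assoc]
        have h5 : |(c j : ℝ)| ≤ S := by
          have := (Int.cast_le (R := ℝ)).2 (hc2 j hj)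
          rwa [Int.cast_abs, Int.cast_abs] at this
        have h6 : τ ≤ S * (U / V) := by
          rw [mul_div_assoc', le_div_iff₀ hV0]; exact hcase
        have h7 : S ^ j * τ ^ (i - j) ≤ S ^ i * (U / V) := by
          calc S ^ j * τ ^ (i - j) ≤ S ^ j * (S * (U / V)) ^ (i - j) := by gcongr
            _ = (S ^ j * S ^ (i - j)) * (U / V) ^ (i - j) := by rw [mul_pow]; ring
            _ = S ^ i * (U / V) ^ (i - j) := by
                rw [← pow_add]; congr 2; omega
            _ ≤ S ^ i * (U / V) := by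
                have : (U / V) ^ (i - j) ≤ (U / V) ^ 1 := pow_le_pow_of_le_one hσ0 hσ (by omega)
                rw [pow_one] at this
                gcongr
        exact mul_le_mul h5 h7 (by positivity) hS0
      rw [sum_const, card_range, nsmul_eq_mul] at h3
      have h8 : (m : ℝ) ≤ T * (2 ^ i * S ^ i * U ^ i) := by
        refine hmR.trans ?_
        have : Q ≤ 2 * S * U := by linarith
        calc (T : ℝ) * Q ^ i ≤ T * (2 * S * U) ^ i := by gcongr
          _ = _ := by rw [mul_pow, mul_pow]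
      have h9 : |(c i : ℝ)| * S ^ i ≤ (T * 2 ^ i * U ^ i + i * (S * (U / V))) * S ^ i := by
        calc _ ≤ _ := h3
          _ ≤ T * (2 ^ i * S ^ i * U ^ i) + i * (S * (S ^ i * (U / V))) := by gcongr
          _ = _ := by ring
      have h10 : |(c i : ℝ)| ≤ T * 2 ^ i * U ^ i + i * (S * (U / V)) :=
        le_of_mul_le_mul_right h9 (by positivity)
      have h11 : S * (U / V) ≤ K1 * T * U ^ i := by
        rw [mul_div_assoc', div_le_iff₀ hV0]
        calc S * U ≤ _ := hsb
          _ = _ := by ring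
      refine h10.trans ?_
      rw [hA0]
      have h12 : (i : ℝ) * (S * (U / V)) ≤ i * (K1 * T * U ^ i) := by gcongr
      have h13 : (T : ℝ) * 2 ^ i * U ^ i + i * (K1 * T * U ^ i) ≤
          (2 ^ i + ((i : ℝ) + 1) * (K1 + NN n i)) * T * U ^ i := by
        have h14 : (0 : ℝ) ≤ (((i : ℝ) + 1) * NN n i + K1) * (T * U ^ i) := by positivity
        nlinarith [h14]
      linarith

end Pool.Agent.Q256.CI
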