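import Mathlib
import Pool.Agent.Q256.CI.RepL
import Pool.Agent.Q256.CI.Low

set_option autoImplicit false

namespace Pool.Agent.Q256.CI

open Finset MvPolynomial

/-- `x` lies on a rational line of `ℙ^(n+1)` cut out by `n` independent linear forms with integral
coefficients in `[-T, T]`. -/
def OnLine {n : ℕ} (T : ℕ) (x : Fin (n + 2) → ℚ) : Prop :=
  ∃ L : Fin n → Fin (n + 2) → ℤ, (∀ j k, |L j k| ≤ T) ∧
    LinearIndependent ℚ (fun j => (fun k => (L j k : ℚ))) ∧ ∀ j, ∑ k, (L j k : ℚ) * x k = 0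

/-- systems of `r` forms of degree `d` with coefficients in `[-H, H]` which have a rational zero
on one of these lines. -/
def LineBad {n : ℕ} (r d H T : ℕ) : Set (Fin r → MvPolynomial (Fin (n + 2)) ℤ) :=
  {F | (∀ i, F i ∈ Box (n + 1) d H) ∧
    ∃ x : Fin (n + 2) → ℚ, x ≠ 0 ∧ OnLine T x ∧ ∀ i, aeval x (F i) = 0}

theorem aeval_cast {m : ℕ} (F : MvPolynomial (Fin m) ℤ) (y : Fin m → ℤ) :
    aeval (fun k => (y k : ℚ)) F = ((eval y F : ℤ) : ℚ) := by
  rw [aeval_def, eval₂_eq', eval_eq']
  push_cast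
  rfl

theorem lineBad_sub {n r d H T : ℕ} (hd : 1 ≤ d) (hT : 1 ≤ T) (hHT : H ≤ T) :
    LineBad (n := n) r d H T ⊆
      Bad (n := n + 1) (fun _ : Fin r => d) H ((n + 2) * T) ∪
        RepSet (n := n + 1) (fun _ : Fin r => d) (KK n d) H T := by
  classical
  rintro F ⟨hF, x, hx0, ⟨L, hL, hind, horth⟩, hzero⟩
  obtain ⟨u, v, h⟩ := exists_reduced L hind
  obtain ⟨z, D, hD, hz⟩ := clear x
  have hz0 : z ≠ 0 := by
    rintro rfl
    apply hx0
    funext k
    have := hz k
    simp only [Pi.zero_apply, Int.cast_zero] at this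
    rcases mul_eq_zero.1 this.symm with h1 | h1
    · exact absurd h1 hD
    · exact h1
  have hzL : InL L z := by
    intro j
    have h1 : ((∑ k, L j k * z k : ℤ) : ℚ) = 0 := by
      push_cast
      simp_rw [hz]
      have : ∑ k, (L j k : ℚ) * (D * x k) = D * ∑ k, (L j k : ℚ) * x k := by
        rw [mul_sum]; exact sum_congr rfl (fun k _ => by ring)
      rw [this, horth j, mul_zero]
    exact_mod_cast h1
  obtain ⟨s', t', hst'⟩ := h.span z hzL
  have hne : s' ≠ 0 ∨ t' ≠ 0 := by
    by_contra hcon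
    push Not at hcon
    apply hz0
    funext k
    rw [hst' k, hcon.1, hcon.2]; simp
  have hg0 : (Int.gcd s' t' : ℤ) ≠ 0 := by
    intro hg
    have hg' : Int.gcd s' t' = 0 := by exact_mod_cast hg
    rw [Int.gcd_eq_zero_iff] at hg'
    rcases hne with h1 | h1
    · exact h1 hg'.1
    · exact h1 hg'.2
  obtain ⟨s, hs⟩ := Int.gcd_dvd_left s' t'
  obtain ⟨t, ht⟩ := Int.gcd_dvd_right s' t'
  set g : ℤ := (Int.gcd s' t' : ℤ) with hg
  have hcop : IsCoprime s t := by
    obtain ⟨a, b, hab⟩ : ∃ a b : ℤ, g = s' * a + t' * b :=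
      ⟨_, _, Int.gcd_eq_gcd_ab s' t'⟩
    refine ⟨a, b, ?_⟩
    have h1 : g * (a * s + b * t) = g * 1 := by
      calc g * (a * s + b * t) = (g * s) * a + (g * t) * b := by ring
        _ = s' * a + t' * b := by rw [← hs, ← ht]
        _ = g * 1 := by rw [← hab, mul_one]
    exact mul_left_cancel₀ hg0 h1
  have hzy : ∀ k, z k = g * (s * u k + t * v k) := by
    intro k
    rw [hst' k]
    calc s' * u k + t' * v k = (g * s) * u k + (g * t) * v k := by rw [← hs, ← ht]
      _ = _ := by ring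
  have hyx : ∀ k, (((s * u k + t * v k : ℤ)) : ℚ) = (D / g) * x k := by
    intro k
    have hgq : (g : ℚ) ≠ 0 := by exact_mod_cast hg0
    have h1 : (z k : ℚ) = g * ((s * u k + t * v k : ℤ) : ℚ) := by
      rw [hzy k]; push_cast; ring
    rw [hz k] at h1
    field_simp
    linarith
  have hyF : ∀ i, eval (fun k => s * u k + t * v k) (F i) = 0 := fun i =>
    aeval_scale (F i) (hF i).1 x (D / g) (fun k => s * u k + t * v k) hyx (hzero i)
  have hy0 : (fun k => s * u k + t * v k) ≠ 0 := by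
    intro h0
    apply hz0
    funext k
    have h1 : s * u k + t * v k = 0 := congrFun h0 k
    rw [hzy k, h1]; simp
  by_cases hall : ∀ i, eval u (F i) = 0
  · left
    refine ⟨hF, fun k => (u k : ℚ), ?_, ?_, fun i => by rw [aeval_cast, hall i]; simp⟩
    · intro h0
      apply h.u0
      funext k
      have h1 : (u k : ℚ) = 0 := congrFun h0 k
      have h2 : u k = 0 := by exact_mod_cast h1
      rw [h2]; rfl
    · obtain ⟨l, hl1, hl2, hl3⟩ := h.lin2 hind T hL 0 1
      refine ⟨Fin.cons l L, ?_, ?_, ?_⟩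
      · intro j k
        refine Fin.cases ?_ (fun j => ?_) j
        · rw [Fin.cons_zero]
          have h1 := hl3 k
          have hV : (1 : ℝ) ≤ ((qq v : ℕ) : ℝ) := by exact_mod_cast h.vpos
          have hTr : (1 : ℝ) ≤ T := by exact_mod_cast hT
          have h2 : |((1 : ℤ) : ℝ)| / ((qq v : ℕ) : ℝ) ≤ 1 := by
            rw [Int.cast_one, abs_one, div_le_one (by linarith)]; exact hV
          have h3 : |(l k : ℝ)| ≤ (((n + 2) * T : ℕ) : ℝ) := by
            push_cast
            simp only [Int.cast_zero, abs_zero, zero_div, mul_zero, zero_add] at h1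
            nlinarith
          exact_mod_cast h3
        · rw [Fin.cons_succ]
          refine (hL j k).trans ?_
          push_cast
          have : (0 : ℤ) ≤ ((n : ℤ) + 1) * T := by positivity
          nlinarith
      · have e1 : (fun j => (fun k => ((Fin.cons l L : Fin (n + 1) → Fin (n + 2) → ℤ) j k : ℚ))) =
            Fin.cons (fun k => (l k : ℚ)) (fun j => (fun k => (L j k : ℚ))) := by
          funext j k
          refine Fin.cases ?_ (fun j => ?_) j <;> simp
        rw [e1, linearIndependent_finCons]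
        refine ⟨hind, ?_⟩
        intro hmem
        let φ : (Fin (n + 2) → ℚ) →ₗ[ℚ] ℚ :=
          { toFun := fun w => ∑ k, w k * v k
            map_add' := fun a b => by
              simp only [Pi.add_apply, add_mul, sum_add_distrib]
            map_smul' := fun a b => by
              simp only [Pi.smul_apply, smul_eq_mul, mul_sum, RingHom.id_apply, mul_assoc] }
        have h4 : Submodule.span ℚ (Set.range (fun j => (fun k => (L j k : ℚ)))) ≤
            LinearMap.ker φ := by
          rw [Submodule.span_le]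
          rintro _ ⟨j, rfl⟩
          have := h.hv j
          change ∑ k, (L j k : ℚ) * v k = 0
          exact_mod_cast this
        have h5 : ∑ k, (l k : ℚ) * v k = 0 := h4 hmem
        have h6 : ∑ k, (l k : ℚ) * v k = 1 := by exact_mod_cast hl2
        rw [h6] at h5
        exact one_ne_zero h5
      · intro j
        refine Fin.cases ?_ (fun j => ?_) j
        · simp only [Fin.cons_zero]
          exact_mod_cast hl1
        · simp only [Fin.cons_succ]
          have := h.hu j
          exact_mod_cast this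
  · right
    push Not at hall
    obtain ⟨i0, hi0⟩ := hall
    refine ⟨fun k => s * u k + t * v k, hy0, fun i => ⟨⟨hF i, hyF i⟩, ?_⟩⟩
    exact rep_line h hind T hL d hd (F i0) ⟨(hF i0).1, fun α => ((hF i0).2 α).trans
      (by exact_mod_cast hHT)⟩ hi0 s t hcop (hyF i0)

theorem line_upper {n : ℕ} (r d : ℕ) (hd : 1 ≤ d) (hrd : n + 3 ≤ r * d) :
    ∃ C : ℝ, ∀ H T : ℕ, 1 ≤ T → H ≤ T →
      (Nat.card (LineBad (n := n) r d H T) : ℝ) ≤
        C * (T : ℝ) ^ (r * ((n + 1 + d).choose (n + 1) - 1)) := by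
  classical
  have hsum : (n + 1) + 2 ≤ ∑ _i : Fin r, d := by simpa using hrd
  obtain ⟨C1, hC1⟩ := upper (n := n + 1) (fun _ : Fin r => d) hsum
  obtain ⟨C2, hC20, hC2⟩ := upper_gen (n := n + 1) (fun _ : Fin r => d) hsum (KK n d)
  refine ⟨C1 * (n + 2) ^ (r * ((n + 1 + d).choose (n + 1) - 1)) + C2, fun H T hT hHT => ?_⟩
  have hsub := lineBad_sub (n := n) (r := r) hd hT hHT
  have hfin1 := bad_finite (n := n + 1) (fun _ : Fin r => d) H ((n + 2) * T)
  have hfin2 := repSet_finite (n := n + 1) (fun _ : Fin r => d) (KK n d) H T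
  have h1 : Nat.card (LineBad (n := n) r d H T) ≤
      Nat.card (Bad (n := n + 1) (fun _ : Fin r => d) H ((n + 2) * T)) +
      Nat.card (RepSet (n := n + 1) (fun _ : Fin r => d) (KK n d) H T) := by
    rw [Nat.card_coe_set_eq, Nat.card_coe_set_eq, Nat.card_coe_set_eq]
    exact (Set.ncard_le_ncard hsub (hfin1.union hfin2)).trans (Set.ncard_union_le _ _)
  have h2 := hC1 H ((n + 2) * T) (by nlinarith) (by nlinarith)
  have h3 := hC2 H T hT hHT
  have hexp : ∑ _i : Fin r, ((n + 1 + d).choose (n + 1) - 1) =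
      r * ((n + 1 + d).choose (n + 1) - 1) := by simp
  rw [hexp] at h2 h3
  calc (Nat.card (LineBad (n := n) r d H T) : ℝ)
      ≤ Nat.card (Bad (n := n + 1) (fun _ : Fin r => d) H ((n + 2) * T)) +
      Nat.card (RepSet (n := n + 1) (fun _ : Fin r => d) (KK n d) H T) := by exact_mod_cast h1
    _ ≤ C1 * (((n + 2) * T : ℕ) : ℝ) ^ (r * ((n + 1 + d).choose (n + 1) - 1)) +
        C2 * (T : ℝ) ^ (r * ((n + 1 + d).choose (n + 1) - 1)) := add_le_add h2 h3
    _ = _ := by push_cast; rw [mul_pow]; ring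

theorem lineBad_finite {n r d H T : ℕ} : (LineBad (n := n) r d H T).Finite := by
  refine (Set.Finite.pi' (fun _ => finite_box (n + 1) d H)).subset ?_
  rintro F ⟨h, _⟩ i
  exact h i

theorem line_lower {n : ℕ} (r d H T : ℕ) (hT : 1 ≤ T) :
    (2 * H + 1) ^ (r * ((n + 1 + d).choose (n + 1) - 1)) ≤
      Nat.card (LineBad (n := n) r d H T) := by
  classical
  have h1 := lower (n := n + 1) (fun _ : Fin r => d) H T hT
  have hexp : ∑ _i : Fin r, ((n + 1 + d).choose (n + 1) - 1) =
      r * ((n + 1 + d).choose (n + 1) - 1) := by simp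
  rw [hexp] at h1
  refine h1.trans ?_
  rw [Nat.card_coe_set_eq, Nat.card_coe_set_eq]
  refine Set.ncard_le_ncard ?_ lineBad_finite
  rintro F ⟨hF, x, hx, ⟨L, hL, hind, horth⟩, hz⟩
  exact ⟨hF, x, hx, ⟨fun j => L j.castSucc, fun j k => hL _ _,
    hind.comp Fin.castSucc (Fin.castSucc_injective _), fun j => horth _⟩, hz⟩

/-- Siegel's lemma for three integers. -/
theorem siegel3 (a b c : ℤ) (T : ℕ) (hT : 1 ≤ T) (ha : 3 * |a| ≤ (T : ℤ) ^ 2)
    (hb : 3 * |b| ≤ (T : ℤ) ^ 2) (hc : 3 * |c| ≤ (T : ℤ) ^ 2) :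
    ∃ p q r : ℤ, (p ≠ 0 ∨ q ≠ 0 ∨ r ≠ 0) ∧ |p| ≤ T ∧ |q| ≤ T ∧ |r| ≤ T ∧
      p * a + q * b + r * c = 0 := by
  classical
  let D : Finset (ℤ × ℤ × ℤ) := Finset.Icc 0 (T : ℤ) ×ˢ (Finset.Icc 0 (T : ℤ) ×ˢ Finset.Icc 0 (T : ℤ))
  let f : ℤ × ℤ × ℤ → ℤ := fun w => w.1 * a + w.2.1 * b + w.2.2 * c
  let lo : ℤ := T * (min a 0 + min b 0 + min c 0)
  let hi : ℤ := T * (max a 0 + max b 0 + max c 0)
  have key : ∀ e : ℤ, ∀ i : ℤ, 0 ≤ i → i ≤ T → T * min e 0 ≤ i * e ∧ i * e ≤ T * max e 0 := by
    intro e i h0 h1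
    rcases le_total e 0 with he | he
    · rw [min_eq_left he, max_eq_right he]
      constructor <;> nlinarith
    · rw [min_eq_right he, max_eq_left he]
      constructor <;> nlinarith
  have hmaps : ∀ w ∈ D, f w ∈ Finset.Icc lo hi := by
    intro w hw
    rw [Finset.mem_product, Finset.mem_product, Finset.mem_Icc, Finset.mem_Icc,
      Finset.mem_Icc] at hw
    obtain ⟨⟨h1, h2⟩, ⟨h3, h4⟩, h5, h6⟩ := hw
    obtain ⟨k1, k2⟩ := key a _ h1 h2
    obtain ⟨k3, k4⟩ := key b _ h3 h4
    obtain ⟨k5, k6⟩ := key c _ h5 h6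
    rw [Finset.mem_Icc]
    simp only [f, lo, hi]
    constructor <;> linarith
  have hcard : #(Finset.Icc lo hi) < #D := by
    have e1 : #D = (T + 1) * ((T + 1) * (T + 1)) := by
      simp [D, Finset.card_product]
    rw [e1, Int.card_Icc]
    have e2 : hi - lo = T * (|a| + |b| + |c|) := by
      simp only [hi, lo]
      have : ∀ e : ℤ, max e 0 - min e 0 = |e| := fun e => by rw [max_sub_min_eq_abs]; simp
      rw [← this a, ← this b, ← this c]; ring
    have hT' : (1 : ℤ) ≤ T := by exact_mod_cast hT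
    have e3 : hi + 1 - lo < (T + 1) * ((T + 1) * (T + 1)) := by
      have : (T : ℤ) * (|a| + |b| + |c|) ≤ T * T ^ 2 :=
        mul_le_mul_of_nonneg_left (by linarith) (by positivity)
      nlinarith
    have e4 : 0 ≤ hi + 1 - lo := by
      have : 0 ≤ (T : ℤ) * (|a| + |b| + |c|) := by positivity
      linarith
    zify
    rw [Int.toNat_of_nonneg e4]
    exact e3
  obtain ⟨w, hw, w', hw', hne, hf⟩ := Finset.exists_ne_map_eq_of_card_lt_of_maps_to hcard hmaps
  rw [Finset.mem_product, Finset.mem_product, Finset.mem_Icc, Finset.mem_Icc,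
      Finset.mem_Icc] at hw hw'
  refine ⟨w.1 - w'.1, w.2.1 - w'.2.1, w.2.2 - w'.2.2, ?_, ?_, ?_, ?_, ?_⟩
  · by_contra hcon
    push Not at hcon
    apply hne
    obtain ⟨h1, h2, h3⟩ := hcon
    ext <;> omega
  · rw [abs_le]; constructor <;> omega
  · rw [abs_le]; constructor <;> omega
  · rw [abs_le]; constructor <;> omega
  · simp only [f] at hf
    linarith

theorem greedy {N : ℕ} (x : Fin N → ℤ) (T : ℕ) (hT : 1 ≤ T)
    (hx : ∀ k, 3 * |x k| ≤ (T : ℤ) ^ 2) (m : ℕ) :
    ∀ S : Finset (Fin N), #S = m + 2 → ∃ L : Fin m → Fin N → ℤ, (∀ j k, |L j k| ≤ T) ∧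
      LinearIndependent ℚ (fun j => (fun k => (L j k : ℚ))) ∧ (∀ j, ∑ k, L j k * x k = 0) ∧
      ∀ j k, k ∉ S → L j k = 0 := by
  classical
  induction m with
  | zero =>
    intro S _
    exact ⟨fun j => j.elim0, fun j => j.elim0, linearIndependent_empty_type, fun j => j.elim0,
      fun j => j.elim0⟩
  | succ m ih =>
    intro S hS
    obtain ⟨a, ha, b, hb, c, hc, hab, hac, hbc⟩ :=
      Finset.two_lt_card.1 (by omega : 2 < #S)
    obtain ⟨p, q, r, hne, hp, hq, hr, h0⟩ := siegel3 (x a) (x b) (x c) T hT (hx a) (hx b) (hx c)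
    let l : Fin N → ℤ := fun k => if k = a then p else if k = b then q else if k = c then r else 0
    have hla : l a = p := by simp [l]
    have hlb : l b = q := by simp [l, Ne.symm hab]
    have hlc : l c = r := by simp [l, Ne.symm hac, Ne.symm hbc]
    obtain ⟨e, heS, he⟩ : ∃ e ∈ S, l e ≠ 0 := by
      rcases hne with h1 | h1 | h1
      · exact ⟨a, ha, by rwa [hla]⟩
      · exact ⟨b, hb, by rwa [hlb]⟩
      · exact ⟨c, hc, by rwa [hlc]⟩
    obtain ⟨L, hL1, hL2, hL3, hL4⟩ := ih (S.erase e) (by rw [card_erase_of_mem heS]; omega)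
    refine ⟨Fin.cons l L, ?_, ?_, ?_, ?_⟩
    · intro j k
      refine Fin.cases ?_ (fun j => ?_) j
      · rw [Fin.cons_zero]
        simp only [l]
        split_ifs
        · exact hp
        · exact hq
        · exact hr
        · simp
      · rw [Fin.cons_succ]; exact hL1 j k
    · have e1 : (fun j => (fun k => ((Fin.cons l L : Fin (m + 1) → Fin N → ℤ) j k : ℚ))) =
          Fin.cons (fun k => (l k : ℚ)) (fun j => (fun k => (L j k : ℚ))) := by
        funext j k
        refine Fin.cases ?_ (fun j => ?_) j <;> simp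
      rw [e1, linearIndependent_finCons]
      refine ⟨hL2, fun hmem => ?_⟩
      have h4 : Submodule.span ℚ (Set.range (fun j => (fun k => (L j k : ℚ)))) ≤
          LinearMap.ker (LinearMap.proj e : (Fin N → ℚ) →ₗ[ℚ] ℚ) := by
        rw [Submodule.span_le]
        rintro _ ⟨j, rfl⟩
        have := hL4 j e (by simp)
        change ((L j e : ℤ) : ℚ) = 0
        exact_mod_cast this
      have h5 : ((l e : ℤ) : ℚ) = 0 := h4 hmem
      exact he (by exact_mod_cast h5)
    · intro j
      refine Fin.cases ?_ (fun j => ?_) j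
      · simp only [Fin.cons_zero]
        have h6 : ∑ k, l k * x k = ∑ k ∈ ({a, b, c} : Finset (Fin N)), l k * x k := by
          symm
          apply sum_subset (subset_univ _)
          intro k _ hk
          simp only [mem_insert, mem_singleton, not_or] at hk
          simp [l, hk.1, hk.2.1, hk.2.2]
        rw [h6, sum_insert (by simp [hab, hac]), sum_insert (by simp [hbc]), sum_singleton,
          hla, hlb, hlc]
        linarith
      · simp only [Fin.cons_succ]; exact hL3 j
    · intro j k hk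
      refine Fin.cases ?_ (fun j => ?_) j
      · rw [Fin.cons_zero]
        have h1 : k ≠ a := fun h => hk (h ▸ ha)
        have h2 : k ≠ b := fun h => hk (h ▸ hb)
        have h3 : k ≠ c := fun h => hk (h ▸ hc)
        simp [l, h1, h2, h3]
      · rw [Fin.cons_succ]
        exact hL4 j k (fun h => hk (mem_of_mem_erase h))

/-- all integral points of height at most `T²/3` lie on such lines. -/
theorem onLine_small {n : ℕ} (T : ℕ) (hT : 1 ≤ T) (x : Fin (n + 2) → ℤ)
    (hx : ∀ k, 3 * |x k| ≤ (T : ℤ) ^ 2) : OnLine T (fun k => (x k : ℚ)) := by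
  obtain ⟨L, h1, h2, h3, -⟩ := greedy x T hT hx n univ (by simp)
  refine ⟨L, h1, h2, fun j => ?_⟩
  have := h3 j
  change ∑ k, (L j k : ℚ) * (x k : ℚ) = 0
  exact_mod_cast this

end Pool.Agent.Q256.CI
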